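import Mathlib

/-!
Definitions for the ratios formula in the family of the Jacobi symbols of odd squarefree modulus.
-/

set_option autoImplicit false

namespace Pool.Agent.H491R3.J

open Complex

theorem jac_periodic (n m : ℕ) : jacobiSym ((m % n : ℕ) : ℤ) n = jacobiSym (m : ℤ) n := by
  rw [jacobiSym.mod_left (m : ℤ) n]
  push_cast
  rfl

/-- The Jacobi symbol `m ↦ (m/n)` as a Dirichlet character modulo `n`. -/
noncomputable def jchi (n : ℕ) [NeZero n] : DirichletCharacter ℂ n where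
  toFun a := ((jacobiSym (a.val : ℤ) n : ℤ) : ℂ)
  map_one' := by
    have h : jacobiSym (((1 : ZMod n).val : ℕ) : ℤ) n = 1 := by
      rw [ZMod.val_one_eq_one_mod, jac_periodic]
      exact_mod_cast jacobiSym.one_left n
    rw [h]
    simp
  map_mul' a b := by
    rw [ZMod.val_mul, jac_periodic]
    push_cast
    rw [jacobiSym.mul_left]
    push_cast
    ring
  map_nonunit' a ha := by
    have h : jacobiSym ((a.val : ℕ) : ℤ) n = 0 := by
      rw [jacobiSym.eq_zero_iff_not_coprime]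
      intro h2
      apply ha
      rw [← ZMod.natCast_zmod_val a]
      apply (ZMod.isUnit_iff_coprime a.val n).2
      rw [Int.gcd_natCast_natCast] at h2
      exact h2
    rw [h]
    simp

/-- `L(s, χ_n)` where `χ_n = (·/n)` (and `0` for `n = 0`). -/
noncomputable def LJ (n : ℕ) (s : ℂ) : ℂ :=
  if h : n = 0 then 0 else
    @DirichletCharacter.LFunction n ⟨h⟩ (@jchi n ⟨h⟩) s

/-- The sum of `L(1/2 + α, χ_n) / L(1/2 + β, χ_n)` over the odd squarefree `n ≤ X`. -/
noncomputable def SX (X : ℝ) (α β : ℂ) : ℂ :=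
  ∑ n ∈ (Finset.Icc 1 ⌊X⌋₊).filter (fun n => Odd n ∧ Squarefree n),
    LJ n (1 / 2 + α) * (LJ n (1 / 2 + β))⁻¹

/-- `Γ_e(1/2 + α)` -/
noncomputable def Ge (α : ℂ) : ℂ := Gamma (1 / 4 - α / 2) / Gamma (1 / 4 + α / 2)

/-- `Γ_o(1/2 + α)` -/
noncomputable def Go (α : ℂ) : ℂ := Gamma (3 / 4 - α / 2) / Gamma (3 / 4 + α / 2)

/-- the product `P_{D,2}(α, β)` over the odd primes -/
noncomputable def PD (α β : ℂ) : ℂ := ∏' p : Nat.Primes, if (p : ℕ) = 2 then 1 else
  1 + (1 - (p : ℂ) ^ (β - α)) / (((p : ℂ) + 1) * ((p : ℂ) ^ (1 + α + β) - 1))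

/-- the first main term -/
noncomputable def M1 (X : ℝ) (α β : ℂ) : ℂ :=
  2 * X * riemannZeta (1 + 2 * α) * PD α β / (3 * riemannZeta 2 * riemannZeta (1 + α + β))

/-- the second main term -/
noncomputable def M2 (X : ℝ) (α β : ℂ) : ℂ :=
  (Real.pi : ℂ) ^ α * (X : ℂ) ^ (1 - α) * riemannZeta (1 - 2 * α) * PD (-α) β /
    (3 * (1 - α) * riemannZeta 2 * riemannZeta (1 + β - α)) * (Ge α + Go α)

/-- the generalized Riemann hypothesis for the `L(s, χ_n)`, `n` odd and squarefree -/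
def GRHJ : Prop := ∀ n : ℕ, Odd n → Squarefree n → ∀ s : ℂ, LJ n s = 0 → 0 < s.re → s.re < 1 →
  s.re = 1 / 2

/-- the odd squarefree integers `n > 1` -/
abbrev OS : Type := {n : ℕ // Odd n ∧ Squarefree n ∧ 1 < n}

instance (d : OS) : NeZero d.1 := ⟨by have := d.2.2.2; omega⟩

/-- the Jacobi character -/
noncomputable def chi (d : OS) : DirichletCharacter ℂ d.1 := jchi d.1

/-- its L-function -/
noncomputable def L (d : OS) (s : ℂ) : ℂ := DirichletCharacter.LFunction (chi d) s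

theorem LJ_eq (d : OS) (s : ℂ) : LJ d.1 s = L d s := by
  unfold LJ L chi
  rw [dif_neg (by have := d.2.2.2; omega)]

theorem chi_natCast (d : OS) (m : ℕ) : chi d (m : ZMod d.1) = ((jacobiSym (m : ℤ) d.1 : ℤ) : ℂ) := by
  change ((jacobiSym (((m : ZMod d.1).val : ℕ) : ℤ) d.1 : ℤ) : ℂ) = _
  rw [ZMod.val_natCast, jac_periodic]

theorem exists_neg_one (d : OS) {p : ℕ} (hp : p.Prime) (hpd : p ∣ d.1) :
    ∃ a : ℕ, a % (d.1 / p) = 1 % (d.1 / p) ∧ jacobiSym (a : ℤ) d.1 = -1 := by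
  obtain ⟨m, hm⟩ := hpd
  have hm0 : 0 < m := Nat.pos_of_ne_zero (by
    rintro rfl
    have := d.2.2.2
    omega)
  have hodd : Odd (p * m) := hm ▸ d.2.1
  have hpodd : Odd p := Nat.Odd.of_mul_left hodd
  have hp2 : p ≠ 2 := by
    rintro rfl
    exact absurd hpodd (by decide)
  have hsq : Squarefree (p * m) := hm ▸ d.2.2.1
  have hcop : Nat.Coprime p m := Nat.coprime_of_squarefree_mul hsq
  have hfact : Fact p.Prime := ⟨hp⟩
  obtain ⟨g, hg⟩ : ∃ g : ℕ, jacobiSym (g : ℤ) p = -1 := by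
    have hchar : ringChar (ZMod p) ≠ 2 := by
      rw [ZMod.ringChar_zmod_n]; exact hp2
    obtain ⟨a, ha⟩ := quadraticChar_exists_neg_one hchar
    refine ⟨a.val, ?_⟩
    rw [← jacobiSym.legendreSym.to_jacobiSym, legendreSym]
    simpa using ha
  obtain ⟨n, hn1, hn2⟩ := Nat.chineseRemainder hcop.symm 1 g
  refine ⟨n, ?_, ?_⟩
  · have : d.1 / p = m := by
      rw [hm, Nat.mul_div_cancel_left _ hp.pos]
    rw [this]
    exact hn1
  · have hne : NeZero m := ⟨hm0.ne'⟩
    have hnep : NeZero p := ⟨hp.ne_zero⟩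
    rw [hm, jacobiSym.mul_right]
    have h1 : jacobiSym (n : ℤ) p = -1 := by
      rw [jacobiSym.mod_left]
      have h4 : ((n : ℤ) % p) = ((g : ℤ) % p) := by
        have : n % p = g % p := hn2
        exact_mod_cast this
      rw [h4, ← jacobiSym.mod_left, hg]
    have h2 : jacobiSym (n : ℤ) m = 1 := by
      rw [jacobiSym.mod_left]
      have h4 : ((n : ℤ) % m) = ((1 : ℤ) % m) := by
        have : n % m = 1 % m := hn1
        exact_mod_cast this
      rw [h4, ← jacobiSym.mod_left, jacobiSym.one_left]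
    rw [h1, h2]
    norm_num

theorem chi_primitive (d : OS) : (chi d).IsPrimitive := by
  unfold DirichletCharacter.IsPrimitive
  by_contra hne
  set N := d.1 with hN
  have hN0 : 0 < N := NeZero.pos N
  have hcd : (chi d).conductor ∣ N := DirichletCharacter.conductor_dvd_level _
  obtain ⟨k, hk⟩ := hcd
  have hk1 : k ≠ 1 := by
    rintro rfl
    apply hne
    rw [mul_one] at hk
    exact hk.symm
  obtain ⟨p, hp, hpk⟩ := Nat.exists_prime_and_dvd hk1
  have hpN : p ∣ N := hk ▸ (hpk.mul_left _)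
  obtain ⟨n, hn1, hn2⟩ := exists_neg_one d hp hpN
  have hcd2 : (chi d).conductor ∣ N / p := by
    obtain ⟨j, hj⟩ := hpk
    refine ⟨j, ?_⟩
    rw [Nat.div_eq_of_eq_mul_left hp.pos]
    rw [hk, hj]; ring
  have hfac := (chi d).factorsThrough_conductor
  obtain ⟨hdvd, χ₀, hχ₀⟩ := hfac
  have hunit : IsUnit (n : ZMod N) := by
    by_contra hu
    have h1 := (chi d).map_nonunit hu
    rw [chi_natCast, hn2] at h1
    norm_num at h1
  have h1 : chi d (n : ZMod N) = χ₀ ((n : ZMod N).cast : ZMod (chi d).conductor) := by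
    obtain ⟨u, hu⟩ := hunit
    rw [← hu]
    conv_lhs => rw [hχ₀]
    exact DirichletCharacter.changeLevel_eq_cast_of_dvd χ₀ hdvd u
  have h2 : ((n : ZMod N).cast : ZMod (chi d).conductor) = 1 := by
    rw [ZMod.cast_natCast hdvd]
    have h3 : n ≡ 1 [MOD (chi d).conductor] := Nat.ModEq.of_dvd hcd2 hn1
    have := (ZMod.natCast_eq_natCast_iff n 1 (chi d).conductor).2 h3
    rw [this]; simp
  rw [h2, map_one, chi_natCast, hn2] at h1
  norm_num at h1

theorem chi_ne_one (d : OS) : chi d ≠ 1 := by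
  intro h
  have h1 := chi_primitive d
  unfold DirichletCharacter.IsPrimitive at h1
  rw [h, DirichletCharacter.conductor_one] at h1
  have := d.2.2.2
  omega

theorem chi_inv (d : OS) : (chi d)⁻¹ = chi d := by
  rw [inv_eq_iff_mul_eq_one]
  ext a
  rw [MulChar.mul_apply, MulChar.one_apply_coe]
  have h : ((a : ZMod d.1).val : ZMod d.1) = a := ZMod.natCast_zmod_val _
  rw [← h, chi_natCast]
  have hne : jacobiSym (((a : ZMod d.1).val : ℕ) : ℤ) d.1 ≠ 0 := by
    intro h0
    have h1 := chi_natCast d (a : ZMod d.1).val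
    rw [h, h0] at h1
    have h2 : IsUnit (chi d (a : ZMod d.1)) := by
      exact a.isUnit.map (chi d)
    rw [h1] at h2
    simp at h2
  rcases jacobiSym.trichotomy (((a : ZMod d.1).val : ℕ) : ℤ) d.1 with h1 | h1 | h1
  · exact absurd h1 hne
  · rw [h1]; norm_num
  · rw [h1]; norm_num

theorem chi_neg_one (d : OS) : chi d (-1) = if d.1 % 4 = 1 then 1 else -1 := by
  have hd := d.2.2.2
  have h1 : (-1 : ZMod d.1) = ((d.1 - 1 : ℕ) : ZMod d.1) := by
    rw [Nat.cast_sub (by omega)]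
    simp
  rw [h1, chi_natCast]
  have h2 : jacobiSym (((d.1 - 1 : ℕ) : ℤ)) d.1 = jacobiSym (-1) d.1 := by
    rw [jacobiSym.mod_left, jacobiSym.mod_left (-1)]
    congr 1
    have : ((d.1 - 1 : ℕ) : ℤ) = -1 + (d.1 : ℤ) * 1 := by
      push_cast [Nat.cast_sub (show 1 ≤ d.1 by omega)]
      ring
    rw [this, Int.add_mul_emod_self_left]
  rw [h2, jacobiSym.at_neg_one d.2.1, ZMod.χ₄_nat_eq_if_mod_four]
  have hodd := Nat.odd_iff.1 d.2.1
  rw [if_neg (by omega)]
  split_ifs <;> norm_num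

theorem chi_even {d : OS} (hd : d.1 % 4 = 1) : (chi d).Even := by
  unfold DirichletCharacter.Even
  rw [chi_neg_one, if_pos hd]

theorem chi_odd {d : OS} (hd : ¬ d.1 % 4 = 1) : (chi d).Odd := by
  unfold DirichletCharacter.Odd
  rw [chi_neg_one, if_neg hd]

end Pool.Agent.H491R3.J
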