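import Pool.Agent.H491R3.J.FE
import Pool.Agent.H491R3.PhiBounds

set_option autoImplicit false

namespace Pool.Agent.H491R3.J

open Complex Filter Topology Finset

theorem norm_prod_le (s : Finset Nat.Primes) (f : Nat.Primes → ℂ)
    (hf : ∀ p, ‖f p‖ ≤ 4 * ((p : ℕ) : ℝ) ^ (-2 : ℝ)) :
    ‖∏ p ∈ s, (1 + f p)‖ ≤ Real.exp (4 * SP) := by
  have h1 := s.norm_prod_one_add_sub_one_le f
  have h2 : ∑ p ∈ s, ‖f p‖ ≤ 4 * SP := by
    calc ∑ p ∈ s, ‖f p‖ ≤ ∑ p ∈ s, 4 * ((p : ℕ) : ℝ) ^ (-2 : ℝ) :=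
          Finset.sum_le_sum fun p _ => hf p
      _ ≤ ∑' p : Nat.Primes, 4 * ((p : ℕ) : ℝ) ^ (-2 : ℝ) :=
          (summable_primes_two.mul_left _).sum_le_tsum _ (fun p _ => by positivity)
      _ = _ := by rw [tsum_mul_left]; rfl
  have h3 := Real.exp_le_exp.2 h2
  have h4 : ‖∏ p ∈ s, (1 + f p)‖ ≤ ‖∏ p ∈ s, (1 + f p) - 1‖ + ‖(1 : ℂ)‖ := by
    have := norm_add_le (∏ p ∈ s, (1 + f p) - 1) 1
    rwa [sub_add_cancel] at this
  rw [norm_one] at h4
  linarith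

theorem PD_bound {β γ : ℂ} (hβ : β.re = 1 / 5) (hγ : γ.re = 1 / 10) :
    ‖PD β γ‖ ≤ Real.exp (4 * SP) := by
  set f : Nat.Primes → ℂ := fun p => if (p : ℕ) = 2 then 0 else
    (1 - (p : ℂ) ^ (γ - β)) / (((p : ℂ) + 1) * ((p : ℂ) ^ (1 + β + γ) - 1)) with hf
  have hfb : ∀ p, ‖f p‖ ≤ 4 * ((p : ℕ) : ℝ) ^ (-2 : ℝ) := by
    intro p
    have hp2 : (2 : ℝ) ≤ ((p : ℕ) : ℝ) := by exact_mod_cast p.2.two_le
    have hp : (0 : ℝ) < ((p : ℕ) : ℝ) := by linarith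
    simp only [hf]
    split_ifs with h
    · rw [norm_zero]; positivity
    · have h1 : ‖(1 : ℂ) - (p : ℂ) ^ (γ - β)‖ ≤ 2 := by
        refine (norm_sub_le _ _).trans ?_
        rw [norm_one, prime_cpow_norm]
        have : ((p : ℕ) : ℝ) ^ (γ - β).re ≤ 1 := by
          apply Real.rpow_le_one_of_one_le_of_nonpos (by linarith)
          rw [sub_re, hβ, hγ]
          norm_num
        linarith
      have h2 : ‖((p : ℕ) : ℂ) + 1‖ = ((p : ℕ) : ℝ) + 1 := by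
        have : ((p : ℕ) : ℂ) + 1 = ((((p : ℕ) : ℝ) + 1 : ℝ) : ℂ) := by push_cast; rfl
        rw [this, norm_real, Real.norm_eq_abs, abs_of_pos (by positivity)]
      have h3 : ((p : ℕ) : ℝ) / 2 ≤ ‖(p : ℂ) ^ (1 + β + γ) - 1‖ := by
        have h4 := norm_sub_norm_le ((p : ℂ) ^ (1 + β + γ)) 1
        rw [norm_one, prime_cpow_norm] at h4
        have h5 : ((p : ℕ) : ℝ) ≤ ((p : ℕ) : ℝ) ^ (1 + β + γ).re := by
          calc ((p : ℕ) : ℝ) = ((p : ℕ) : ℝ) ^ (1 : ℝ) := (Real.rpow_one _).symm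
            _ ≤ _ := by
              apply Real.rpow_le_rpow_of_exponent_le (by linarith)
              rw [add_re, add_re, one_re, hβ, hγ]
              norm_num
        linarith
      rw [norm_div, norm_mul, h2, Real.rpow_neg hp.le]
      have h6 : ((p : ℕ) : ℝ) ^ (2 : ℝ) = ((p : ℕ) : ℝ) ^ 2 := by
        rw [← Real.rpow_natCast]; norm_num
      rw [h6, div_le_iff₀ (mul_pos (by positivity) (lt_of_lt_of_le (by positivity) h3))]
      have h7 : ((p : ℕ) : ℝ) ^ 2 / 2 ≤ (((p : ℕ) : ℝ) + 1) * ‖(p : ℂ) ^ (1 + β + γ) - 1‖ := by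
        nlinarith
      calc ‖(1 : ℂ) - (p : ℂ) ^ (γ - β)‖ ≤ 2 := h1
        _ = 4 * (((p : ℕ) : ℝ) ^ 2)⁻¹ * (((p : ℕ) : ℝ) ^ 2 / 2) := by
          field_simp
          norm_num
        _ ≤ _ := mul_le_mul_of_nonneg_left h7 (by positivity)
  have heq : PD β γ = ∏' p : Nat.Primes, (1 + f p) := by
    unfold PD
    apply tprod_congr
    intro p
    simp only [hf]
    split_ifs <;> simp
  rw [heq]
  have hs : Summable (fun p : Nat.Primes => ‖f p‖) :=
    Summable.of_nonneg_of_le (fun _ => norm_nonneg _) hfb (summable_primes_two.mul_left _)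
  have hm : Multipliable (fun p : Nat.Primes => 1 + f p) := multipliable_one_add_of_summable hs
  have ht : Tendsto (fun s : Finset Nat.Primes => ‖∏ p ∈ s, (1 + f p)‖) atTop
      (𝓝 ‖∏' p : Nat.Primes, (1 + f p)‖) := (continuous_norm.tendsto _).comp hm.hasProd
  exact le_of_tendsto' ht fun s => norm_prod_le s f hfb

/-- the second main term times `HH` -/
theorem M2_bound : ∃ C : ℝ, 0 ≤ C ∧ ∀ X t u : ℝ, 0 < X → 0 < t →
    ‖HH (1 / 2 + ((1 / 5 : ℝ) + t * I)) *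
      M2 X (-((1 / 5 : ℝ) + t * I)) ((1 / 10 : ℝ) + u * I)‖ ≤ C * (X ^ (6 / 5 : ℝ) / t) := by
  set Z1 := ∑' n : ℕ, 1 / (n : ℝ) ^ (7 / 5 : ℝ) with hZ1
  set Z2 := ∑' n : ℕ, 1 / (n : ℝ) ^ (13 / 10 : ℝ) with hZ2
  have hZ1' : 0 ≤ Z1 := tsum_nonneg fun n => by positivity
  have hZ2' : 0 ≤ Z2 := tsum_nonneg fun n => by positivity
  refine ⟨Z1 * Real.exp (4 * SP) * ‖(3 * riemannZeta 2)⁻¹‖ * Z2 * 4, by positivity, ?_⟩
  intro X t u hX ht
  set β : ℂ := ((1 / 5 : ℝ) : ℂ) + t * I with hβ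
  set γ : ℂ := ((1 / 10 : ℝ) : ℂ) + u * I with hγ
  have hβre : β.re = 1 / 5 := by rw [hβ]; simp
  have hβim : β.im = t := by rw [hβ]; simp
  have hγre : γ.re = 1 / 10 := by rw [hγ]; simp
  have h1 : ‖riemannZeta (1 + 2 * β)‖ ≤ Z1 := by
    have hre : 7 / 5 ≤ (1 + 2 * β).re := by
      have : (1 + 2 * β).re = 1 + 2 * β.re := by simp
      rw [this, hβre]; norm_num
    rw [zeta_series (by linarith)]
    exact lseries_le (fun _ => by simp) (by norm_num) hre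
  have h2 : ‖(riemannZeta (1 + γ + β))⁻¹‖ ≤ Z2 := by
    have hre : 13 / 10 ≤ (1 + γ + β).re := by
      rw [add_re, add_re, one_re, hβre, hγre]; norm_num
    rw [zeta_inv_series (by linarith)]
    exact lseries_le mu_norm (by norm_num) hre
  have h3 := PD_bound hβre hγre
  have h4 : ‖(1 + β)⁻¹‖ ≤ 1 / t := by
    rw [norm_inv, ← one_div]
    apply one_div_le_one_div_of_le ht
    have h5 := abs_im_le_norm (1 + β)
    rw [add_im, one_im, hβim, zero_add, abs_of_pos ht] at h5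
    exact h5
  have h5 : ‖(X : ℂ) ^ (1 + β)‖ = X ^ (6 / 5 : ℝ) := by
    rw [norm_cpow_eq_rpow_re_of_pos hX, add_re, one_re, hβre]
    norm_num
  have h6 : ‖e1 (1 / 2 + β) + e2 (1 / 2 + β)‖ ≤ 4 := by
    have h7 : ‖exp (Real.pi * I * (1 / 2 + β))‖ ≤ 1 := by
      rw [Complex.norm_exp, Real.exp_le_one_iff]
      have h8 : (Real.pi * I * (1 / 2 + β)).re = -(Real.pi * t) := by
        have h9 : (Real.pi : ℂ) * I * (1 / 2 + β) =
            ((-(Real.pi * t) : ℝ) : ℂ) + ((Real.pi * (1 / 2 + 1 / 5) : ℝ) : ℂ) * I := by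
          rw [hβ]
          push_cast
          ring_nf
          rw [I_sq]
          ring
        rw [h9, add_re, ofReal_re, re_ofReal_mul, I_re, mul_zero, add_zero]
      rw [h8]
      have := Real.pi_pos
      nlinarith [mul_pos this ht]
    have h9 : ‖e1 (1 / 2 + β)‖ ≤ 2 := by
      unfold e1
      refine (norm_add_le _ _).trans ?_
      rw [norm_one]
      linarith
    have h10 : ‖e2 (1 / 2 + β)‖ ≤ 2 := by
      unfold e2
      rw [norm_mul, norm_I, one_mul]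
      refine (norm_sub_le _ _).trans ?_
      rw [norm_one]
      linarith
    exact (norm_add_le _ _).trans (by linarith)
  have hHH := HH_gammas (β := β) (by rw [add_re, hβre]; norm_num)
  have hM : HH (1 / 2 + β) * M2 X (-β) γ = (X : ℂ) ^ (1 + β) * riemannZeta (1 + 2 * β) *
      PD β γ * (3 * riemannZeta 2)⁻¹ * (1 + β)⁻¹ * (riemannZeta (1 + γ + β))⁻¹ *
      (e1 (1 / 2 + β) + e2 (1 / 2 + β)) := by
    rw [← hHH]
    unfold M2
    rw [neg_neg]
    have x1 : (1 : ℂ) - -β = 1 + β := by ring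
    have x2 : (1 : ℂ) - 2 * -β = 1 + 2 * β := by ring
    have x3 : (1 : ℂ) + γ - -β = 1 + γ + β := by ring
    have hD : (3 * (1 + β) * riemannZeta 2 * riemannZeta (1 + γ + β))⁻¹ =
        (3 * riemannZeta 2)⁻¹ * (1 + β)⁻¹ * (riemannZeta (1 + γ + β))⁻¹ := by
      simp only [mul_inv]
      ring
    rw [x1, x2, x3, div_eq_mul_inv _ (3 * (1 + β) * riemannZeta 2 * riemannZeta (1 + γ + β)), hD]
    ring
  rw [hM, norm_mul, norm_mul, norm_mul, norm_mul, norm_mul, norm_mul, h5]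
  calc _ ≤ X ^ (6 / 5 : ℝ) * Z1 * Real.exp (4 * SP) * ‖(3 * riemannZeta 2)⁻¹‖ * (1 / t) * Z2 * 4 := by
        gcongr
    _ = _ := by ring

theorem M1_comb (X : ℝ) (α β : ℂ) :
    2 * M1 (5 / 4 * X) α β - M1 X α β - M1 (3 / 2 * X) α β = 0 := by
  unfold M1
  push_cast
  ring

end Pool.Agent.H491R3.J
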