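import Pool.Agent.H491R3.J.Setup
import Pool.Agent.H491R3.J.MTerms

set_option autoImplicit false

namespace Pool.Agent.H491R3.J

open Finset Complex

/-- the formula with error `O(X^(1/2 + ε))`, uniformly for `Re α = -1/5`, `Re β = 1/10` -/
def UniformJ (ε c C : ℝ) : Prop :=
  ∃ K : ℝ, ∀ X : ℝ, 2 ≤ X → ∀ α β : ℂ, α.re = -(1 / 5) → β.re = 1 / 10 →
    c / Real.log X ≤ β.re → |α.im| ≤ C * X ^ (1 - ε) → |β.im| ≤ C * X ^ (1 - ε) →
    ‖SX X α β - M1 X α β - M2 X α β‖ ≤ K * X ^ (1 / 2 + ε)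

theorem sum_split (F : ℕ → ℂ) {a b c : ℕ} (hab : a ≤ b) (hbc : b ≤ c) :
    2 * (∑ n ∈ (Finset.Icc 1 b).filter (fun n => Odd n ∧ Squarefree n), F n) -
      (∑ n ∈ (Finset.Icc 1 a).filter (fun n => Odd n ∧ Squarefree n), F n) -
      (∑ n ∈ (Finset.Icc 1 c).filter (fun n => Odd n ∧ Squarefree n), F n) =
    ∑ n ∈ (Finset.Ioc a c).filter (fun n => Odd n ∧ Squarefree n),
      (if n ≤ b then 1 else -1) * F n := by
  classical
  have step : ∀ x y : ℕ, x ≤ y →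
      ∑ n ∈ (Finset.Icc 1 y).filter (fun n => Odd n ∧ Squarefree n), F n =
      ∑ n ∈ (Finset.Icc 1 x).filter (fun n => Odd n ∧ Squarefree n), F n +
      ∑ n ∈ (Finset.Ioc x y).filter (fun n => Odd n ∧ Squarefree n), F n := by
    intro x y hxy
    have hu : (Finset.Icc 1 y).filter (fun n => Odd n ∧ Squarefree n) =
        (Finset.Icc 1 x).filter (fun n => Odd n ∧ Squarefree n) ∪
        (Finset.Ioc x y).filter (fun n => Odd n ∧ Squarefree n) := by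
      ext n
      simp only [mem_filter, mem_union, mem_Icc, mem_Ioc]
      constructor
      · rintro ⟨⟨h1, h2⟩, h3⟩
        by_cases h : n ≤ x
        · exact Or.inl ⟨⟨h1, h⟩, h3⟩
        · exact Or.inr ⟨⟨by omega, h2⟩, h3⟩
      · rintro (⟨⟨h1, h2⟩, h3⟩ | ⟨⟨h1, h2⟩, h3⟩)
        · exact ⟨⟨h1, by omega⟩, h3⟩
        · exact ⟨⟨by omega, h2⟩, h3⟩
    rw [hu, sum_union]
    rw [Finset.disjoint_left]
    intro n hn hn2
    rw [mem_filter, mem_Icc] at hn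
    rw [mem_filter, mem_Ioc] at hn2
    omega
  have hspl : (Finset.Ioc a c).filter (fun n => Odd n ∧ Squarefree n) =
      (Finset.Ioc a b).filter (fun n => Odd n ∧ Squarefree n) ∪
      (Finset.Ioc b c).filter (fun n => Odd n ∧ Squarefree n) := by
    ext n
    simp only [mem_filter, mem_union, mem_Ioc]
    constructor
    · rintro ⟨⟨h1, h2⟩, h3⟩
      by_cases h : n ≤ b
      · exact Or.inl ⟨⟨h1, h⟩, h3⟩
      · exact Or.inr ⟨⟨by omega, h2⟩, h3⟩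
    · rintro (⟨⟨h1, h2⟩, h3⟩ | ⟨⟨h1, h2⟩, h3⟩)
      · exact ⟨⟨h1, by omega⟩, h3⟩
      · exact ⟨⟨by omega, h2⟩, h3⟩
  have hdis : Disjoint ((Finset.Ioc a b).filter (fun n => Odd n ∧ Squarefree n))
      ((Finset.Ioc b c).filter (fun n => Odd n ∧ Squarefree n)) := by
    rw [Finset.disjoint_left]
    intro n hn hn2
    rw [mem_filter, mem_Ioc] at hn
    rw [mem_filter, mem_Ioc] at hn2
    omega
  rw [hspl, sum_union hdis]
  have h1 : ∑ n ∈ (Finset.Ioc a b).filter (fun n => Odd n ∧ Squarefree n),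
      (if n ≤ b then 1 else -1) * F n =
      ∑ n ∈ (Finset.Ioc a b).filter (fun n => Odd n ∧ Squarefree n), F n := by
    apply sum_congr rfl
    intro n hn
    rw [mem_filter, mem_Ioc] at hn
    rw [if_pos hn.1.2, one_mul]
  have h2 : ∑ n ∈ (Finset.Ioc b c).filter (fun n => Odd n ∧ Squarefree n),
      (if n ≤ b then 1 else -1) * F n =
      -∑ n ∈ (Finset.Ioc b c).filter (fun n => Odd n ∧ Squarefree n), F n := by
    rw [← sum_neg_distrib]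
    apply sum_congr rfl
    intro n hn
    rw [mem_filter, mem_Ioc] at hn
    rw [if_neg (by omega)]
    ring
  rw [h1, h2]
  have s1 := step a b hab
  have s2 := step b c hbc
  rw [s2, s1]
  ring

theorem SX_comb {r : ℕ} (hr : 1 ≤ r) (α γ : ℂ) :
    2 * SX (5 / 4 * (r : ℝ) ^ 100) α γ - SX ((r : ℝ) ^ 100) α γ - SX (3 / 2 * (r : ℝ) ^ 100) α γ =
    ∑ d ∈ Dr r, ((vv r d : ℝ) : ℂ) * (L d (1 / 2 + α) * (L d (1 / 2 + γ))⁻¹) := by
  classical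
  have f1 : ⌊(r : ℝ) ^ 100⌋₊ = r ^ 100 := by
    have : (r : ℝ) ^ 100 = ((r ^ 100 : ℕ) : ℝ) := by push_cast; rfl
    rw [this, Nat.floor_natCast]
  have f2 : ⌊5 / 4 * (r : ℝ) ^ 100⌋₊ = 5 * r ^ 100 / 4 := by
    have : 5 / 4 * (r : ℝ) ^ 100 = ((5 * r ^ 100 : ℕ) : ℝ) / ((4 : ℕ) : ℝ) := by push_cast; ring
    rw [this, Nat.floor_div_eq_div]
  have f3 : ⌊3 / 2 * (r : ℝ) ^ 100⌋₊ = 3 * r ^ 100 / 2 := by
    have : 3 / 2 * (r : ℝ) ^ 100 = ((3 * r ^ 100 : ℕ) : ℝ) / ((2 : ℕ) : ℝ) := by push_cast; ring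
    rw [this, Nat.floor_div_eq_div]
  unfold SX
  rw [f1, f2, f3, sum_split _ (by omega) (by omega)]
  have h1 : 1 ≤ r ^ 100 := Nat.one_le_pow _ _ hr
  have hfil : (Finset.Ioc (r ^ 100) (3 * r ^ 100 / 2)).filter (fun n => Odd n ∧ Squarefree n) =
      (Finset.Ioc (r ^ 100) (3 * r ^ 100 / 2)).filter
        (fun n => Odd n ∧ Squarefree n ∧ 1 < n) := by
    ext n
    simp only [mem_filter, mem_Ioc]
    constructor
    · rintro ⟨⟨h2, h3⟩, h4, h5⟩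
      exact ⟨⟨h2, h3⟩, h4, h5, by omega⟩
    · rintro ⟨h2, h4, h5, -⟩
      exact ⟨h2, h4, h5⟩
  rw [hfil]
  have hsub := Finset.sum_subtype_eq_sum_filter (s := Finset.Ioc (r ^ 100) (3 * r ^ 100 / 2))
    (p := fun n => Odd n ∧ Squarefree n ∧ 1 < n)
    (fun n => (if n ≤ 5 * r ^ 100 / 4 then (1 : ℂ) else -1) *
      (LJ n (1 / 2 + α) * (LJ n (1 / 2 + γ))⁻¹))
  rw [← hsub]
  unfold Dr
  apply sum_congr
  · congr
  · intro d _
    rw [LJ_eq d, LJ_eq d]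
    congr 1
    unfold vv
    split_ifs <;> simp

/-- the twisted sum -/
noncomputable def E1 (r : ℕ) (β γ : ℂ) : ℂ := ∑ d ∈ Dr r, ((vv r d : ℝ) : ℂ) *
  (exp (β * (Real.log (d.1 : ℝ) : ℝ)) * ee d (1 / 2 + β) *
    (W d * L d (1 / 2 + β) * (L d (1 / 2 + γ))⁻¹))

theorem E1_eq (r : ℕ) {β γ : ℂ} (hβ : 0 < (1 / 2 + β).re) :
    E1 r β γ = HH (1 / 2 + β) *
      ∑ d ∈ Dr r, ((vv r d : ℝ) : ℂ) * (L d (1 / 2 + -β) * (L d (1 / 2 + γ))⁻¹) := by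
  unfold E1
  rw [mul_sum]
  apply sum_congr rfl
  intro d _
  have h := HH_L d hβ
  have e : (1 : ℂ) - (1 / 2 + β) = 1 / 2 + -β := by ring
  have e' : (1 : ℂ) / 2 + β - 1 / 2 = β := by ring
  rw [e, e'] at h
  have hd0 : (0 : ℝ) < (d.1 : ℝ) := by
    have := d.2.2.2
    exact_mod_cast (by omega : 0 < d.1)
  have h2 : ((d.1 : ℕ) : ℂ) ^ β = exp (β * (Real.log (d.1 : ℝ) : ℝ)) := by
    rw [cpow_def_of_ne_zero (by exact_mod_cast hd0.ne'), natCast_log, mul_comm]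
  calc _ = ((vv r d : ℝ) : ℂ) * ((W d * (((d.1 : ℕ) : ℂ) ^ β * ee d (1 / 2 + β)) *
        L d (1 / 2 + β)) * (L d (1 / 2 + γ))⁻¹) := by rw [h2]; ring
    _ = _ := by rw [← h]; ring

theorem E1_bound {ε c C : ℝ} (hε : ε = 1 / 100) (hC : 0 < C)
    (h : UniformJ ε c C) : ∃ K : ℝ, 0 ≤ K ∧ ∃ r₀ : ℕ, ∀ r ≥ r₀, ∀ t u : ℝ,
      (r : ℝ) ^ 98 / 2 ≤ t → t ≤ 2 * (r : ℝ) ^ 98 → |u| ≤ (r : ℝ) ^ 22 →
      ‖E1 r ((1 / 5 : ℝ) + t * I) ((1 / 10 : ℝ) + u * I)‖ ≤ K * (r : ℝ) ^ 51 := by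
  obtain ⟨K, hK⟩ := h
  obtain ⟨CH, hCH, hHH⟩ := HH_bound
  obtain ⟨C2, hC2, hM2⟩ := M2_bound
  refine ⟨8 * CH * |K| + 20 * C2, by positivity, ?_⟩
  have ev : ∀ᶠ r : ℕ in Filter.atTop, (c / Real.log ((r : ℝ) ^ 100) ≤ 1 / 10) ∧
      (c / Real.log (5 / 4 * (r : ℝ) ^ 100) ≤ 1 / 10) ∧
      (c / Real.log (3 / 2 * (r : ℝ) ^ 100) ≤ 1 / 10) ∧ (2 / C ≤ (r : ℝ)) := by
    have t0 : Filter.Tendsto (fun r : ℕ => (r : ℝ) ^ 100) Filter.atTop Filter.atTop :=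
      (Filter.tendsto_pow_atTop (by norm_num)).comp tendsto_natCast_atTop_atTop
    have t1 : Filter.Tendsto (fun r : ℕ => 5 / 4 * (r : ℝ) ^ 100) Filter.atTop Filter.atTop :=
      t0.const_mul_atTop (by norm_num)
    have t2 : Filter.Tendsto (fun r : ℕ => 3 / 2 * (r : ℝ) ^ 100) Filter.atTop Filter.atTop :=
      t0.const_mul_atTop (by norm_num)
    have s0 : Filter.Tendsto (fun r : ℕ => c / Real.log ((r : ℝ) ^ 100)) Filter.atTop (nhds 0) :=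
      (Real.tendsto_log_atTop.comp t0).const_div_atTop c
    have s1 : Filter.Tendsto (fun r : ℕ => c / Real.log (5 / 4 * (r : ℝ) ^ 100)) Filter.atTop
      (nhds 0) := (Real.tendsto_log_atTop.comp t1).const_div_atTop c
    have s2 : Filter.Tendsto (fun r : ℕ => c / Real.log (3 / 2 * (r : ℝ) ^ 100)) Filter.atTop
      (nhds 0) := (Real.tendsto_log_atTop.comp t2).const_div_atTop c
    have hpos : (0 : ℝ) < 1 / 10 := by norm_num
    filter_upwards [s0.eventually (eventually_le_nhds hpos), s1.eventually (eventually_le_nhds hpos),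
      s2.eventually (eventually_le_nhds hpos),
      tendsto_natCast_atTop_atTop.eventually_ge_atTop (2 / C)] with r a b c d
    exact ⟨a, b, c, d⟩
  obtain ⟨r₂, h2⟩ := Filter.eventually_atTop.1 ev
  refine ⟨max 1000 r₂, fun r hr t u ht0 ht hu => ?_⟩
  obtain ⟨l1, l2, l3, l4⟩ := h2 r (le_trans (le_max_right _ _) hr)
  have hrn : 1000 ≤ r := le_trans (le_max_left _ _) hr
  have hr1000 : (1000 : ℝ) ≤ r := by exact_mod_cast hrn
  have hr0 : (0 : ℝ) < r := by linarith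
  have hr1 : (1 : ℝ) ≤ r := by linarith
  have hX : (0 : ℝ) < (r : ℝ) ^ 100 := by positivity
  have h98 : (0 : ℝ) < (r : ℝ) ^ 98 := by positivity
  have htpos : 0 < t := by linarith
  set β : ℂ := ((1 / 5 : ℝ) : ℂ) + t * I with hβ
  set γ : ℂ := ((1 / 10 : ℝ) : ℂ) + u * I with hγ
  have hβre : β.re = 1 / 5 := by rw [hβ]; simp
  have hβim : β.im = t := by rw [hβ]; simp
  have hγre : γ.re = 1 / 10 := by rw [hγ]; simp
  have hγim : γ.im = u := by rw [hγ]; simp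
  have hβ2 : 0 < (1 / 2 + β).re := by
    rw [add_re, hβre]
    norm_num
  have hC8 : 2 ≤ C * r := by
    rw [div_le_iff₀ hC] at l4
    linarith
  have hX2 : (2 : ℝ) ≤ (r : ℝ) ^ 100 := by
    calc (2 : ℝ) ≤ r := by linarith
      _ = (r : ℝ) ^ 1 := (pow_one _).symm
      _ ≤ (r : ℝ) ^ 100 := pow_le_pow_right₀ hr1 (by norm_num)
  have hpow : ∀ Y : ℝ, (r : ℝ) ^ 100 ≤ Y → 2 * (r : ℝ) ^ 98 ≤ C * Y ^ (1 - ε) := by
    intro Y hY
    have h3 : ((r : ℝ) ^ 100) ^ (1 - ε) ≤ Y ^ (1 - ε) := by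
      apply Real.rpow_le_rpow hX.le hY
      rw [hε]; norm_num
    have h5 : ((r : ℝ) ^ 100) ^ (1 - ε) = (r : ℝ) ^ 99 := by
      rw [← Real.rpow_natCast, ← Real.rpow_mul hr0.le, hε, ← Real.rpow_natCast]
      norm_num
    rw [h5] at h3
    have h7 : 2 * (r : ℝ) ^ 98 ≤ C * (r : ℝ) ^ 99 := by
      have : C * (r : ℝ) ^ 99 = (C * r) * (r : ℝ) ^ 98 := by ring
      rw [this]
      nlinarith
    have h8 := mul_le_mul_of_nonneg_left h3 hC.le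
    linarith
  have h22 : (r : ℝ) ^ 22 ≤ 2 * (r : ℝ) ^ 98 := by
    have : (r : ℝ) ^ 22 ≤ (r : ℝ) ^ 98 := pow_le_pow_right₀ hr1 (by norm_num)
    linarith
  have hpow2 : ∀ Y : ℝ, (r : ℝ) ^ 100 ≤ Y → Y ≤ 3 / 2 * (r : ℝ) ^ 100 →
      Y ^ (1 / 2 + ε) ≤ 2 * (r : ℝ) ^ 51 := by
    intro Y hY hY2
    have h3 : Y ^ (1 / 2 + ε) ≤ (3 / 2 * (r : ℝ) ^ 100) ^ (1 / 2 + ε) := by
      apply Real.rpow_le_rpow (by linarith) hY2
      rw [hε]; norm_num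
    refine h3.trans ?_
    rw [Real.mul_rpow (by norm_num) hX.le]
    have h5 : ((r : ℝ) ^ 100) ^ (1 / 2 + ε) = (r : ℝ) ^ 51 := by
      rw [← Real.rpow_natCast, ← Real.rpow_mul hr0.le, hε, ← Real.rpow_natCast]
      norm_num
    rw [h5]
    have h6 : (3 / 2 : ℝ) ^ (1 / 2 + ε) ≤ 2 := by
      calc (3 / 2 : ℝ) ^ (1 / 2 + ε) ≤ (3 / 2 : ℝ) ^ (1 : ℝ) := by
            apply Real.rpow_le_rpow_of_exponent_le (by norm_num)
            rw [hε]; norm_num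
        _ = 3 / 2 := Real.rpow_one _
        _ ≤ 2 := by norm_num
    gcongr
  have bound : ∀ Y : ℝ, (r : ℝ) ^ 100 ≤ Y → Y ≤ 3 / 2 * (r : ℝ) ^ 100 →
      c / Real.log Y ≤ 1 / 10 →
      ‖SX Y (-β) γ - M1 Y (-β) γ - M2 Y (-β) γ‖ ≤ |K| * (2 * (r : ℝ) ^ 51) := by
    intro Y hY hY2 hlog
    have h9 := hK Y (hX2.trans hY) (-β) γ (by rw [neg_re, hβre]) hγre (by rw [hγre]; exact hlog)
      (by
        rw [neg_im, abs_neg, hβim, abs_of_pos htpos]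
        exact ht.trans (hpow Y hY))
      (by rw [hγim]; exact hu.trans (h22.trans (hpow Y hY)))
    refine h9.trans ?_
    calc K * Y ^ (1 / 2 + ε) ≤ |K| * Y ^ (1 / 2 + ε) :=
          mul_le_mul_of_nonneg_right (le_abs_self K) (Real.rpow_nonneg (by linarith) _)
      _ ≤ |K| * (2 * (r : ℝ) ^ 51) :=
          mul_le_mul_of_nonneg_left (hpow2 Y hY hY2) (abs_nonneg K)
  have hm2 : ∀ Y : ℝ, (r : ℝ) ^ 100 ≤ Y → Y ≤ 3 / 2 * (r : ℝ) ^ 100 →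
      ‖HH (1 / 2 + β) * M2 Y (-β) γ‖ ≤ C2 * (4 * (r : ℝ) ^ 51) := by
    intro Y hY hY2
    refine (hM2 Y t u (by linarith) htpos).trans ?_
    apply mul_le_mul_of_nonneg_left _ hC2
    rw [div_le_iff₀ htpos]
    have h3 : Y ^ (6 / 5 : ℝ) ≤ 2 * (r : ℝ) ^ 120 := by
      have h4 : Y ^ (6 / 5 : ℝ) ≤ (3 / 2 * (r : ℝ) ^ 100) ^ (6 / 5 : ℝ) :=
        Real.rpow_le_rpow (by linarith) hY2 (by norm_num)
      refine h4.trans ?_
      rw [Real.mul_rpow (by norm_num) hX.le]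
      have h5 : ((r : ℝ) ^ 100) ^ (6 / 5 : ℝ) = (r : ℝ) ^ 120 := by
        rw [← Real.rpow_natCast, ← Real.rpow_mul hr0.le, ← Real.rpow_natCast]
        norm_num
      rw [h5]
      have h6 : (3 / 2 : ℝ) ^ (6 / 5 : ℝ) ≤ 2 := by
        have h7 : ((3 / 2 : ℝ) ^ (6 / 5 : ℝ)) ^ 5 ≤ 2 ^ 5 := by
          rw [← Real.rpow_natCast, ← Real.rpow_mul (by norm_num)]
          norm_num
        exact le_of_pow_le_pow_left₀ (by norm_num) (by norm_num) h7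
      gcongr
    have h8 : 2 * (r : ℝ) ^ 120 ≤ 4 * (r : ℝ) ^ 51 * ((r : ℝ) ^ 98 / 2) := by
      have : (r : ℝ) ^ 120 ≤ (r : ℝ) ^ 149 := pow_le_pow_right₀ hr1 (by norm_num)
      calc 2 * (r : ℝ) ^ 120 ≤ 2 * (r : ℝ) ^ 149 := by gcongr
        _ = _ := by ring
    calc Y ^ (6 / 5 : ℝ) ≤ 2 * (r : ℝ) ^ 120 := h3
      _ ≤ 4 * (r : ℝ) ^ 51 * ((r : ℝ) ^ 98 / 2) := h8
      _ ≤ 4 * (r : ℝ) ^ 51 * t := by gcongr
  have hH : ‖HH (1 / 2 + β)‖ ≤ CH := by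
    have e : (1 / 2 + β) = ((7 / 10 : ℝ) : ℂ) + t * I := by
      rw [hβ]
      push_cast; ring
    rw [e]
    exact hHH t htpos.le
  have q1 : (r : ℝ) ^ 100 ≤ 5 / 4 * (r : ℝ) ^ 100 := by linarith
  have q2 : 5 / 4 * (r : ℝ) ^ 100 ≤ 3 / 2 * (r : ℝ) ^ 100 := by linarith
  have q3 : (r : ℝ) ^ 100 ≤ 3 / 2 * (r : ℝ) ^ 100 := by linarith
  have b1 := bound _ le_rfl q3 l1
  have b2 := bound _ q1 q2 l2
  have b3 := bound _ q3 le_rfl l3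
  have c1 := hm2 _ le_rfl q3
  have c2 := hm2 _ q1 q2
  have c3 := hm2 _ q3 le_rfl
  rw [E1_eq r hβ2, ← SX_comb (by omega)]
  set s1 := SX ((r : ℝ) ^ 100) (-β) γ - M1 ((r : ℝ) ^ 100) (-β) γ - M2 ((r : ℝ) ^ 100) (-β) γ
    with hs1
  set s2 := SX (5 / 4 * (r : ℝ) ^ 100) (-β) γ - M1 (5 / 4 * (r : ℝ) ^ 100) (-β) γ -
    M2 (5 / 4 * (r : ℝ) ^ 100) (-β) γ with hs2
  set s3 := SX (3 / 2 * (r : ℝ) ^ 100) (-β) γ - M1 (3 / 2 * (r : ℝ) ^ 100) (-β) γ -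
    M2 (3 / 2 * (r : ℝ) ^ 100) (-β) γ with hs3
  have hM := M1_comb ((r : ℝ) ^ 100) (-β) γ
  have key : HH (1 / 2 + β) * (2 * SX (5 / 4 * (r : ℝ) ^ 100) (-β) γ - SX ((r : ℝ) ^ 100) (-β) γ -
      SX (3 / 2 * (r : ℝ) ^ 100) (-β) γ) = HH (1 / 2 + β) * (2 * s2 - s1 - s3) +
      (2 * (HH (1 / 2 + β) * M2 (5 / 4 * (r : ℝ) ^ 100) (-β) γ) -
      HH (1 / 2 + β) * M2 ((r : ℝ) ^ 100) (-β) γ -
      HH (1 / 2 + β) * M2 (3 / 2 * (r : ℝ) ^ 100) (-β) γ) := by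
    rw [hs1, hs2, hs3]
    linear_combination HH (1 / 2 + β) * hM
  rw [key]
  refine (norm_add_le _ _).trans ?_
  have n1 : ‖HH (1 / 2 + β) * (2 * s2 - s1 - s3)‖ ≤ CH * (8 * (|K| * (r : ℝ) ^ 51)) := by
    rw [norm_mul]
    have : ‖2 * s2 - s1 - s3‖ ≤ 8 * (|K| * (r : ℝ) ^ 51) := by
      refine (norm_sub_le _ _).trans ?_
      have := norm_sub_le (2 * s2) s1
      rw [norm_mul, Complex.norm_ofNat] at this
      linarith
    gcongr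
  have n2 : ‖2 * (HH (1 / 2 + β) * M2 (5 / 4 * (r : ℝ) ^ 100) (-β) γ) -
      HH (1 / 2 + β) * M2 ((r : ℝ) ^ 100) (-β) γ -
      HH (1 / 2 + β) * M2 (3 / 2 * (r : ℝ) ^ 100) (-β) γ‖ ≤ 16 * C2 * (r : ℝ) ^ 51 := by
    refine (norm_sub_le _ _).trans ?_
    have := norm_sub_le (2 * (HH (1 / 2 + β) * M2 (5 / 4 * (r : ℝ) ^ 100) (-β) γ))
      (HH (1 / 2 + β) * M2 ((r : ℝ) ^ 100) (-β) γ)
    rw [norm_mul (2 : ℂ), Complex.norm_ofNat] at this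
    linarith
  have n3 : 0 ≤ C2 * (r : ℝ) ^ 51 := by positivity
  have n4 : 0 ≤ CH * |K| * (r : ℝ) ^ 51 := by positivity
  nlinarith

end Pool.Agent.H491R3.J
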