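import Pool.Agent.H491R3.J.Defs
import Pool.Agent.H491R3.Gam

set_option autoImplicit false

namespace Pool.Agent.H491R3.J

open Complex

/-- the root number -/
noncomputable def W (d : OS) : ℂ := DirichletCharacter.rootNumber (chi d)

theorem completed_one_sub (d : OS) (s : ℂ) :
    DirichletCharacter.completedLFunction (chi d) (1 - s) =
      ((d.1 : ℕ) : ℂ) ^ (s - 1 / 2) * W d *
        DirichletCharacter.completedLFunction (chi d) s := by
  have h := (chi_primitive d).completedLFunction_one_sub s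
  rw [chi_inv] at h
  exact h

theorem gammaFactor_ne_zero (d : OS) {s : ℂ} (hs : 0 < s.re) :
    DirichletCharacter.gammaFactor (chi d) s ≠ 0 := by
  by_cases hd : d.1 % 4 = 1
  · rw [(chi_even hd).gammaFactor_def]
    exact Gammaℝ_ne_zero_of_re_pos hs
  · rw [(chi_odd hd).gammaFactor_def]
    apply Gammaℝ_ne_zero_of_re_pos
    simp
    linarith

theorem L_eq (d : OS) (s : ℂ) : L d s =
    DirichletCharacter.completedLFunction (chi d) s / DirichletCharacter.gammaFactor (chi d) s :=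
  DirichletCharacter.LFunction_eq_completed_div_gammaFactor _ _
    (Or.inr (by have := d.2.2.2; omega))

theorem L_two_ne_zero (d : OS) : L d 2 ≠ 0 :=
  DirichletCharacter.LFunction_ne_zero_of_one_le_re (chi d) (Or.inl (chi_ne_one d)) (by simp)

theorem W_sq (d : OS) : W d * W d = 1 := by
  set N := ((d.1 : ℕ) : ℂ) with hN
  have hN0 : N ≠ 0 := by
    rw [hN]
    exact_mod_cast (NeZero.ne d.1)
  set c := DirichletCharacter.completedLFunction (chi d) with hc
  have h1 := completed_one_sub d 2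
  have h2 := completed_one_sub d (1 - 2)
  rw [sub_sub_cancel, h1] at h2
  have hc2 : c 2 ≠ 0 := by
    have h3 := L_two_ne_zero d
    rw [L_eq] at h3
    intro h4
    have h4' : DirichletCharacter.completedLFunction (chi d) 2 = 0 := h4
    rw [h4', zero_div] at h3
    exact h3 rfl
  have h5 : N ^ ((1 : ℂ) - 2 - 1 / 2) * N ^ ((2 : ℂ) - 1 / 2) = 1 := by
    rw [← cpow_add _ _ hN0]
    norm_num
  have h6 : c 2 = (W d * W d) * c 2 := by
    calc c 2 = N ^ ((1 : ℂ) - 2 - 1 / 2) * W d * (N ^ ((2 : ℂ) - 1 / 2) * W d * c 2) := h2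
      _ = (N ^ ((1 : ℂ) - 2 - 1 / 2) * N ^ ((2 : ℂ) - 1 / 2)) * ((W d * W d) * c 2) := by ring
      _ = _ := by rw [h5, one_mul]
  have h7 := mul_right_cancel₀ hc2 ((one_mul (c 2)).trans h6)
  exact h7.symm

theorem W_eq (d : OS) : W d = 1 ∨ W d = -1 := by
  have h := W_sq d
  exact mul_self_eq_one_iff.1 h

/-- `cos (π s / 2)` or `sin (π s / 2)` -/
noncomputable def trig (d : OS) (s : ℂ) : ℂ :=
  if d.1 % 4 = 1 then cos (Real.pi * s / 2) else sin (Real.pi * s / 2)

theorem L_one_sub (d : OS) {s : ℂ} (hs : 0 < s.re) :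
    L d (1 - s) = W d * (((d.1 : ℕ) : ℂ) ^ (s - 1 / 2) * (Gammaℂ s * trig d s)) *
      L d s := by
  rw [L_eq d (1 - s), completed_one_sub, L_eq d s]
  have hg := gammaFactor_ne_zero d hs
  have key : (DirichletCharacter.gammaFactor (chi d) (1 - s))⁻¹ =
      Gammaℂ s * trig d s * (DirichletCharacter.gammaFactor (chi d) s)⁻¹ := by
    unfold trig
    split_ifs with hd
    · rw [(chi_even hd).gammaFactor_def, (chi_even hd).gammaFactor_def]
      exact inv_Gammaℝ_one_sub (ne_neg_nat hs)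
    · rw [(chi_odd hd).gammaFactor_def, (chi_odd hd).gammaFactor_def,
        show (1 : ℂ) - s + 1 = 2 - s by ring]
      exact inv_Gammaℝ_two_sub (ne_neg_nat hs)
  rw [div_eq_mul_inv, key]
  field_simp

/-- `1 + e^(π i s)` -/
noncomputable def e1 (s : ℂ) : ℂ := 1 + exp (Real.pi * I * s)

/-- `i (1 - e^(π i s))` -/
noncomputable def e2 (s : ℂ) : ℂ := I * (1 - exp (Real.pi * I * s))

/-- the factor `1 + e^(π i s)` or `i (1 - e^(π i s))` -/
noncomputable def ee (d : OS) (s : ℂ) : ℂ := if d.1 % 4 = 1 then e1 s else e2 s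

theorem HH_cos {s : ℂ} (hs : 0 < s.re) : HH s * (Gammaℂ s * cos (Real.pi * s / 2)) = e1 s ∧
    HH s * (Gammaℂ s * sin (Real.pi * s / 2)) = e2 s := by
  have hpi : (2 * Real.pi : ℂ) ≠ 0 := by
    have : (Real.pi : ℂ) ≠ 0 := by exact_mod_cast Real.pi_pos.ne'
    simp
  unfold HH
  have hG : Gamma s ≠ 0 := Gamma_ne_zero_of_re_pos hs
  have h1 : (2 * Real.pi : ℂ) ^ s * (Gamma s)⁻¹ * Gammaℂ s = 2 := by
    rw [Gammaℂ_def]
    have : (2 * Real.pi : ℂ) ^ s * (2 * Real.pi : ℂ) ^ (-s) = 1 := by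
      rw [← cpow_add _ _ hpi]; simp
    calc _ = ((2 * Real.pi : ℂ) ^ s * (2 * Real.pi : ℂ) ^ (-s)) * 2 * ((Gamma s)⁻¹ * Gamma s) := by
          ring
      _ = _ := by rw [this, inv_mul_cancel₀ hG]; ring
  have x1 : exp (Real.pi * I * s / 2) * exp (Real.pi * I * s / 2) = exp (Real.pi * I * s) := by
    rw [← exp_add]; congr 1; ring
  have x2 : exp (Real.pi * I * s / 2) * exp (-(Real.pi * I * s / 2)) = 1 := by
    rw [← exp_add]; simp
  have a1 : (Real.pi : ℂ) * s / 2 * I = Real.pi * I * s / 2 := by ring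
  have a2 : -((Real.pi : ℂ) * s / 2) * I = -(Real.pi * I * s / 2) := by ring
  constructor
  · have h2 : 2 * exp (Real.pi * I * s / 2) * cos (Real.pi * s / 2) = e1 s := by
      unfold e1
      rw [cos, a1, a2]
      linear_combination x1 + x2
    calc _ = ((2 * Real.pi : ℂ) ^ s * (Gamma s)⁻¹ * Gammaℂ s) * exp (Real.pi * I * s / 2) *
          cos (Real.pi * s / 2) := by ring
      _ = _ := by rw [h1, h2]
  · have h2 : 2 * exp (Real.pi * I * s / 2) * sin (Real.pi * s / 2) = e2 s := by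
      unfold e2
      rw [sin, a1, a2]
      linear_combination (-I) * x1 + I * x2
    calc _ = ((2 * Real.pi : ℂ) ^ s * (Gamma s)⁻¹ * Gammaℂ s) * exp (Real.pi * I * s / 2) *
          sin (Real.pi * s / 2) := by ring
      _ = _ := by rw [h1, h2]

theorem HH_trig (d : OS) {s : ℂ} (hs : 0 < s.re) : HH s * (Gammaℂ s * trig d s) = ee d s := by
  unfold trig ee
  split_ifs with h
  · exact (HH_cos hs).1
  · exact (HH_cos hs).2

/-- the functional equation -/
theorem HH_L (d : OS) {s : ℂ} (hs : 0 < s.re) : HH s * L d (1 - s) =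
    W d * ((d.1 : ℂ) ^ (s - 1 / 2) * ee d s) * L d s := by
  rw [L_one_sub d hs, ← HH_trig d hs]
  ring

/-- the gamma factors of the second main term -/
theorem HH_gammas {β : ℂ} (hβ : 0 < (1 / 2 + β).re) :
    HH (1 / 2 + β) * ((Real.pi : ℂ) ^ (-β) * (Ge (-β) + Go (-β))) =
      e1 (1 / 2 + β) + e2 (1 / 2 + β) := by
  set s := 1 / 2 + β with hs
  have hpi : (Real.pi : ℂ) ≠ 0 := by exact_mod_cast Real.pi_pos.ne'
  obtain ⟨h1, h2⟩ := HH_cos hβ
  have k1 : (Real.pi : ℂ) ^ (-β) * Ge (-β) = Gammaℂ s * cos (Real.pi * s / 2) := by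
    have h := inv_Gammaℝ_one_sub (ne_neg_nat hβ)
    have h2 : Gammaℂ s * cos (Real.pi * s / 2) = Gammaℝ s * (Gammaℝ (1 - s))⁻¹ := by
      rw [h]
      have := Gammaℝ_ne_zero_of_re_pos hβ
      field_simp
    unfold Ge
    rw [h2, Gammaℝ_def, Gammaℝ_def, mul_inv, ← cpow_neg]
    have x1 : (1 : ℂ) / 4 - -β / 2 = s / 2 := by rw [hs]; ring
    have x2 : (1 : ℂ) / 4 + -β / 2 = (1 - s) / 2 := by rw [hs]; ring
    rw [x1, x2]
    have x3 : (Real.pi : ℂ) ^ (-β) = (Real.pi : ℂ) ^ (-s / 2) *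
        (Real.pi : ℂ) ^ (-(-(1 - s) / 2)) := by
      rw [← cpow_add _ _ hpi]
      congr 1
      rw [hs]
      ring
    rw [x3, div_eq_mul_inv]
    ring
  have k2 : (Real.pi : ℂ) ^ (-β) * Go (-β) = Gammaℂ s * sin (Real.pi * s / 2) := by
    have h := inv_Gammaℝ_two_sub (ne_neg_nat hβ)
    have h2 : Gammaℂ s * sin (Real.pi * s / 2) = Gammaℝ (s + 1) * (Gammaℝ (2 - s))⁻¹ := by
      rw [h]
      have : Gammaℝ (s + 1) ≠ 0 := Gammaℝ_ne_zero_of_re_pos (by
        rw [add_re, one_re]; linarith)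
      field_simp
    unfold Go
    rw [h2, Gammaℝ_def, Gammaℝ_def, mul_inv, ← cpow_neg]
    have x1 : (3 : ℂ) / 4 - -β / 2 = (s + 1) / 2 := by rw [hs]; ring
    have x2 : (3 : ℂ) / 4 + -β / 2 = (2 - s) / 2 := by rw [hs]; ring
    rw [x1, x2]
    have x3 : (Real.pi : ℂ) ^ (-β) = (Real.pi : ℂ) ^ (-(s + 1) / 2) *
        (Real.pi : ℂ) ^ (-(-(2 - s) / 2)) := by
      rw [← cpow_add _ _ hpi]
      congr 1
      rw [hs]
      ring
    rw [x3, div_eq_mul_inv]
    ring
  rw [mul_add, mul_add, k1, k2, h1, h2]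

end Pool.Agent.H491R3.J
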