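import Pool.Agent.H491R3.J.GPart
import Pool.Agent.H491R3.Tiny
import Pool.Agent.H491R3.PrimeCnt

set_option autoImplicit false

namespace Pool.Agent.H491R3.J

open Finset Complex MeasureTheory

theorem ll_le {r : ℕ} (hr : 1 ≤ r) {d e : OS} (hd : d ∈ Dr r) (he : e ∈ Sr r) :
    ll d e ≤ Real.log (3 / 2) := by
  have hX : (0 : ℝ) < (r : ℝ) ^ 100 := by
    have : (0 : ℝ) < r := by exact_mod_cast hr
    positivity
  obtain ⟨-, h1, h2, -⟩ := Dr_window hd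
  obtain ⟨-, h3, -, -⟩ := Dr_window (Sr_sub he)
  have hd0 : 0 < (d.1 : ℝ) := by linarith
  have he0 : 0 < (e.1 : ℝ) := by linarith
  unfold ll
  rw [← Real.log_div hd0.ne' he0.ne']
  apply Real.log_le_log (by positivity)
  rw [div_le_iff₀ he0]
  linarith

theorem qq_le {r : ℕ} {d : OS} (hd : d ∈ Dr r) : qq d ≤ 16 * (r : ℝ) ^ 100 := by
  obtain ⟨-, -, -, h⟩ := Dr_window hd
  have : (0 : ℝ) ≤ (r : ℝ) ^ 100 := by positivity
  unfold qq
  linarith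

theorem inv_bound (hG : GRHJ) {r : ℕ} (hr : 1000 ≤ (r : ℝ)) {d : OS} (hd : d ∈ Dr r) {s : ℂ}
    (hs : 3 / 5 ≤ s.re) (him : |s.im| ≤ (r : ℝ) ^ 22) : ‖(L d s)⁻¹‖ ≤ (r : ℝ) ^ 6889 := by
  have h1 := inv_L_bound hG d hs
  have hq := qq_le hd
  have hq0 := qq_pos d
  have hr0 : (0 : ℝ) < r := by linarith
  have hr1 : (1 : ℝ) ≤ r := by linarith
  have h22 : (5 : ℝ) ≤ (r : ℝ) ^ 22 := by
    calc (5 : ℝ) ≤ r := by linarith
      _ = (r : ℝ) ^ 1 := (pow_one _).symm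
      _ ≤ (r : ℝ) ^ 22 := pow_le_pow_right₀ hr1 (by norm_num)
  have hbase : 16 * qq d * (|s.im| + 5) ≤ (r : ℝ) ^ 123 := by
    calc 16 * qq d * (|s.im| + 5) ≤ 16 * (16 * (r : ℝ) ^ 100) * ((r : ℝ) ^ 22 + (r : ℝ) ^ 22) := by
          gcongr
      _ = 512 * (r : ℝ) ^ 122 := by ring
      _ ≤ r * (r : ℝ) ^ 122 := by gcongr; linarith
      _ = (r : ℝ) ^ 123 := by ring
  have hbase0 : 0 ≤ 16 * qq d * (|s.im| + 5) := by
    have := abs_nonneg s.im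
    positivity
  calc ‖(L d s)⁻¹‖ ≤ 4 * (16 * qq d * (|s.im| + 5)) ^ (56 : ℝ) := h1
    _ ≤ 4 * ((r : ℝ) ^ 123) ^ (56 : ℝ) := by
        have := Real.rpow_le_rpow hbase0 hbase (show (0 : ℝ) ≤ 56 by norm_num)
        linarith
    _ = 4 * (r : ℝ) ^ 6888 := by
        congr 1
        have : (56 : ℝ) = ((56 : ℕ) : ℝ) := by norm_num
        rw [this, Real.rpow_natCast, ← pow_mul]
    _ ≤ r * (r : ℝ) ^ 6888 := by gcongr; linarith
    _ = (r : ℝ) ^ 6889 := by ring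

theorem beta_L {r : ℕ} (hr : 1000 ≤ (r : ℝ)) {d e : OS} (hd : d ∈ Dr r) (he : e ∈ Sr r) :
    ‖(∫ t in ((r : ℝ) ^ 98 - (r : ℝ) ^ 97)..((r : ℝ) ^ 98 + (r : ℝ) ^ 97),
        KK ((r : ℝ) ^ 96) ((r : ℝ) ^ 98) ((1 / 5 : ℝ) + t * I) *
        ee d (1 / 2 + ((1 / 5 : ℝ) + t * I)) * exp (((1 / 5 : ℝ) + t * I) * (ll d e : ℝ)) *
        L d (1 / 2 + ((1 / 5 : ℝ) + t * I))) -
      sg d * (((Real.sqrt Real.pi * (r : ℝ) ^ 96 : ℝ) : ℂ) *
        Kap ((r : ℝ) ^ 96) ((r : ℝ) ^ 98) (ll d e))‖ ≤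
      (r : ℝ) ^ 7000 * Real.exp (-((r : ℝ) / 4)) := by
  have hr0 : (0 : ℝ) < r := by linarith
  have hr1 : (1 : ℝ) ≤ r := by linarith
  have hrn : 1 ≤ r := by exact_mod_cast hr1
  have hq := qq_le hd
  have hq0 := qq_pos d
  have h9798 : (r : ℝ) ^ 97 ≤ (r : ℝ) ^ 98 := pow_le_pow_right₀ hr1 (by norm_num)
  have h1_98 : (r : ℝ) ≤ (r : ℝ) ^ 98 := by
    calc (r : ℝ) = (r : ℝ) ^ 1 := (pow_one _).symm
      _ ≤ (r : ℝ) ^ 98 := pow_le_pow_right₀ hr1 (by norm_num)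
  have h1_100 : (r : ℝ) ≤ (r : ℝ) ^ 100 := by
    calc (r : ℝ) = (r : ℝ) ^ 1 := (pow_one _).symm
      _ ≤ (r : ℝ) ^ 100 := pow_le_pow_right₀ hr1 (by norm_num)
  have h := beta_ext d (U := (r : ℝ) ^ 96) (V := (r : ℝ) ^ 97) (T := (r : ℝ) ^ 98) (b := (r : ℝ))
    (C := r * (2 : ℝ) ^ (-(r : ℝ))) (M := (r : ℝ) ^ 199) (l := ll d e)
    (F := fun z => L d (1 / 2 + z)) (by positivity)
    (by positivity) h9798 (by linarith) (ll_le hrn hd he)
    ((L_diff d).comp (by fun_prop : Differentiable ℂ fun z : ℂ => 1 / 2 + z)).differentiableOn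
    (by
      intro x hx y hy
      have hre : (1 / 2 + ((x : ℂ) + y * I)).re = 1 / 2 + x := by simp
      have him : (1 / 2 + ((x : ℂ) + y * I)).im = y := by simp
      have h2 := L_growth d (s := 1 / 2 + ((x : ℂ) + y * I)) (by rw [hre]; linarith [hx.1])
      rw [hre] at h2
      have h3 : ‖1 / 2 + ((x : ℂ) + y * I)‖ ≤ 4 * (r : ℝ) ^ 98 := by
        refine (norm_le_abs_re_add_abs_im _).trans ?_
        rw [hre, him, abs_of_pos (by linarith [hx.1]), abs_of_nonneg (by linarith [hy.1])]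
        linarith [hx.2, hy.2]
      have h4 : (qq d + 1) / (1 / 2 + x) ≤ 34 * (r : ℝ) ^ 100 := by
        rw [div_le_iff₀ (by linarith [hx.1])]
        have : 0 < (r : ℝ) ^ 100 := by positivity
        nlinarith [hx.1]
      have h5 : ‖L d (1 / 2 + ((x : ℂ) + y * I))‖ ≤ (4 * (r : ℝ) ^ 98) * (34 * (r : ℝ) ^ 100) := by
        refine h2.trans (mul_le_mul h3 h4 ?_ (by positivity))
        apply div_nonneg (by linarith) (by linarith [hx.1])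
      refine (norm_sub_le _ _).trans ?_
      rw [norm_one]
      have h6 : (4 * (r : ℝ) ^ 98) * (34 * (r : ℝ) ^ 100) + 1 ≤ (r : ℝ) ^ 199 := by
        have h7 : 1 ≤ (r : ℝ) ^ 198 := one_le_pow₀ hr1
        calc (4 * (r : ℝ) ^ 98) * (34 * (r : ℝ) ^ 100) + 1 = 136 * (r : ℝ) ^ 198 + 1 := by ring
          _ ≤ r * (r : ℝ) ^ 198 := by nlinarith
          _ = (r : ℝ) ^ 199 := by ring
      linarith)
    (by
      intro y hy
      have hre : (1 / 2 + (((r : ℝ) : ℂ) + y * I)).re = 1 / 2 + (r : ℝ) := by simp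
      have h2 := L_sub_one d (s := 1 / 2 + (((r : ℝ) : ℂ) + y * I)) (by rw [hre]; linarith)
      rw [hre] at h2
      refine h2.trans ?_
      have h3 : (2 : ℝ) ^ (2 - (1 / 2 + (r : ℝ))) ≤ 4 * (2 : ℝ) ^ (-(r : ℝ)) := by
        have e4 : (4 : ℝ) = (2 : ℝ) ^ (2 : ℝ) := by norm_num
        rw [e4, ← Real.rpow_add (by norm_num)]
        apply Real.rpow_le_rpow_of_exponent_le (by norm_num)
        linarith
      have h4 : 0 < (2 : ℝ) ^ (-(r : ℝ)) := by positivity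
      nlinarith)
  have h2 := beta_err (r := (r : ℝ)) (C := r * (2 : ℝ) ^ (-(r : ℝ))) (M := (r : ℝ) ^ 199) hr
    (by positivity) (by positivity) le_rfl le_rfl
  have h3 : (r : ℝ) ^ 202 * Real.exp (-((r : ℝ) / 4)) ≤
      (r : ℝ) ^ 7000 * Real.exp (-((r : ℝ) / 4)) := by
    have : (r : ℝ) ^ 202 ≤ (r : ℝ) ^ 7000 := pow_le_pow_right₀ hr1 (by norm_num)
    have := Real.exp_pos (-((r : ℝ) / 4))
    gcongr
  unfold Kap
  rw [← mul_assoc (((Real.sqrt Real.pi * (r : ℝ) ^ 96 : ℝ) : ℂ))]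
  exact h.trans (h2.trans h3)

theorem final_arith {r p K0 m : ℝ} (hr : 1000 ≤ r) (hp0 : 1 ≤ p) (hp : p ≤ r ^ 20) (hK0 : 0 ≤ K0)
    (hm : 0 ≤ m) {τ : ℝ} (hτ : τ = r ^ 7000 * Real.exp (-(r / 4)))
    (h : (Real.sqrt Real.pi * r ^ 96) * (Real.sqrt Real.pi * r ^ 21) * p ^ (-(1 / 2) : ℝ) * m ≤
      2 * p ^ (1 / 10 : ℝ) * ((K0 * r ^ 51) * (Real.sqrt Real.pi * r ^ 96 * (12 * r ^ 32)) +
        r ^ 200 * (r ^ 6889 * τ)) * (Real.sqrt Real.pi * r ^ 21) +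
      r ^ 200 * (Real.sqrt Real.pi * r ^ 96) * τ) :
    m ≤ 24 * K0 * r ^ 95 + r ^ 14200 * Real.exp (-(r / 4)) := by
  have hr0 : 0 < r := by linarith
  have hr1 : 1 ≤ r := by linarith
  have hE0 : 0 < Real.exp (-(r / 4)) := Real.exp_pos _
  have hτ0 : 0 ≤ τ := by rw [hτ]; positivity
  have hs : 1 ≤ Real.sqrt Real.pi := by
    rw [Real.one_le_sqrt]
    have := Real.pi_gt_three
    linarith
  set ω := Real.sqrt Real.pi * r ^ 96 with hω
  set ω' := Real.sqrt Real.pi * r ^ 21 with hω'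
  have h96 : (1 : ℝ) ≤ r ^ 96 := one_le_pow₀ hr1
  have h21 : (1 : ℝ) ≤ r ^ 21 := one_le_pow₀ hr1
  have hω1 : 1 ≤ ω := by nlinarith
  have hω1' : 1 ≤ ω' := by nlinarith
  have e1 : p ^ (1 / 10 : ℝ) ≤ r ^ 2 := by
    calc p ^ (1 / 10 : ℝ) ≤ (r ^ 20) ^ (1 / 10 : ℝ) :=
          Real.rpow_le_rpow (by linarith) hp (by norm_num)
      _ = r ^ 2 := by
        rw [← Real.rpow_natCast, ← Real.rpow_mul hr0.le, ← Real.rpow_natCast]
        norm_num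
  have e2 : (r ^ 10)⁻¹ ≤ p ^ (-(1 / 2) : ℝ) := by
    rw [Real.rpow_neg (by linarith)]
    apply inv_anti₀ (by positivity)
    calc p ^ (1 / 2 : ℝ) ≤ (r ^ 20) ^ (1 / 2 : ℝ) :=
          Real.rpow_le_rpow (by linarith) hp (by norm_num)
      _ = r ^ 10 := by
        rw [← Real.rpow_natCast, ← Real.rpow_mul hr0.le, ← Real.rpow_natCast]
        norm_num
  set Z := (K0 * r ^ 51) * (ω * (12 * r ^ 32)) + r ^ 200 * (r ^ 6889 * τ) with hZ
  have hA0 : 0 ≤ r ^ 200 := pow_nonneg hr0.le _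
  have hB0 : 0 ≤ r ^ 6889 * τ := mul_nonneg (pow_nonneg hr0.le _) hτ0
  have hω0 : 0 ≤ ω := by linarith
  have hω0' : 0 ≤ ω' := by linarith
  have hZ0 : 0 ≤ Z := add_nonneg (mul_nonneg (mul_nonneg hK0 (pow_nonneg hr0.le _))
    (mul_nonneg hω0 (mul_nonneg (by norm_num) (pow_nonneg hr0.le _)))) (mul_nonneg hA0 hB0)
  have h1 : m * (ω * ω' * (r ^ 10)⁻¹) ≤ ω * ω' * p ^ (-(1 / 2) : ℝ) * m := by
    calc m * (ω * ω' * (r ^ 10)⁻¹) ≤ m * (ω * ω' * p ^ (-(1 / 2) : ℝ)) := by gcongr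
      _ = _ := by ring
  have h2 : 2 * p ^ (1 / 10 : ℝ) * Z * ω' + r ^ 200 * ω * τ ≤
      2 * r ^ 2 * Z * ω' + r ^ 200 * ω * τ :=
    add_le_add (mul_le_mul_of_nonneg_right (mul_le_mul_of_nonneg_right
      (mul_le_mul_of_nonneg_left e1 (by norm_num)) hZ0) hω0') le_rfl
  have h3 : 2 * r ^ 2 * Z * ω' + r ^ 200 * ω * τ ≤
      (24 * K0 * r ^ 95 + r ^ 14200 * Real.exp (-(r / 4))) * (ω * ω' * (r ^ 10)⁻¹) := by
    have a1 : 2 * r ^ 2 * ((K0 * r ^ 51) * (ω * (12 * r ^ 32))) * ω' =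
        24 * K0 * r ^ 95 * (ω * ω' * (r ^ 10)⁻¹) := by
      field_simp
      ring
    have a2 : 2 * r ^ 2 * (r ^ 200 * (r ^ 6889 * τ)) * ω' + r ^ 200 * ω * τ ≤
        (r ^ 14200 * Real.exp (-(r / 4))) * (ω * ω' * (r ^ 10)⁻¹) := by
      have b2 : ω' ≤ ω * ω' := by nlinarith
      have b3 : ω ≤ ω * ω' := by nlinarith
      calc 2 * r ^ 2 * (r ^ 200 * (r ^ 6889 * τ)) * ω' + r ^ 200 * ω * τ ≤
          2 * r ^ 2 * (r ^ 200 * (r ^ 6889 * τ)) * (ω * ω') +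
            r ^ 200 * (ω * ω') * τ :=
            add_le_add (mul_le_mul_of_nonneg_left b2 (mul_nonneg (mul_nonneg (by norm_num)
              (pow_nonneg hr0.le _)) (mul_nonneg hA0 hB0)))
              (mul_le_mul_of_nonneg_right (mul_le_mul_of_nonneg_left b3 hA0) hτ0)
        _ = (2 * r ^ 7091 + r ^ 200) * τ * (ω * ω') := by ring
        _ ≤ (3 * r ^ 7091) * τ * (ω * ω') := by
          have : r ^ 200 ≤ r ^ 7091 := pow_le_pow_right₀ hr1 (by norm_num)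
          gcongr
          linarith
        _ ≤ (r * r ^ 7091) * τ * (ω * ω') := by
          gcongr
          linarith
        _ = (r ^ 14102 * (r ^ 10)⁻¹) * Real.exp (-(r / 4)) * (ω * ω') := by
          rw [hτ]
          have : r * r ^ 7091 * r ^ 7000 = r ^ 14102 * (r ^ 10)⁻¹ := by
            field_simp
          rw [← mul_assoc (r * r ^ 7091), this]
        _ ≤ (r ^ 14200 * (r ^ 10)⁻¹) * Real.exp (-(r / 4)) * (ω * ω') := by
          have : r ^ 14102 ≤ r ^ 14200 := pow_le_pow_right₀ hr1 (by norm_num)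
          gcongr
        _ = _ := by ring
    rw [hZ]
    calc _ = 2 * r ^ 2 * ((K0 * r ^ 51) * (ω * (12 * r ^ 32))) * ω' +
        (2 * r ^ 2 * (r ^ 200 * (r ^ 6889 * τ)) * ω' + r ^ 200 * ω * τ) := by ring
      _ ≤ _ := by
        rw [a1, add_mul (24 * K0 * r ^ 95) (r ^ 14200 * Real.exp (-(r / 4)))
          (ω * ω' * (r ^ 10)⁻¹)]
        exact add_le_add le_rfl a2
  have h4 : 0 < ω * ω' * (r ^ 10)⁻¹ := by positivity
  exact le_of_mul_le_mul_right (h1.trans (h.trans (h2.trans h3))) h4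

theorem mm_upper (hG : GRHJ) {ε c C : ℝ} (hε : ε = 1 / 100)
    (hC : 0 < C) (h : UniformJ ε c C) : ∃ K : ℝ, 0 ≤ K ∧ ∃ r₀ : ℕ, ∀ r ≥ r₀,
      ∀ p ∈ PQ r, ‖mm r p‖ ≤ 24 * K * (r : ℝ) ^ 95 +
        (r : ℝ) ^ 14200 * Real.exp (-((r : ℝ) / 4)) := by
  obtain ⟨K, hK, r₁, hE⟩ := E1_bound hε hC h
  set S := ∑' n : ℕ, 1 / (n : ℝ) ^ (5 / 2 : ℝ) with hS
  have hS0 : 0 ≤ S := tsum_nonneg fun n => by positivity
  refine ⟨K, hK, max (max r₁ 1000) (⌈S⌉₊), fun r hr p hp => ?_⟩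
  have hr1' : r₁ ≤ r := (le_max_left _ _).trans ((le_max_left _ _).trans hr)
  have hr2' : 1000 ≤ r := (le_max_right _ _).trans ((le_max_left _ _).trans hr)
  have hr3' : S ≤ r := by
    have h1 : S ≤ ⌈S⌉₊ := Nat.le_ceil _
    have h2 : ((⌈S⌉₊ : ℕ) : ℝ) ≤ r := by exact_mod_cast (le_max_right _ _).trans hr
    linarith
  have hr : (1000 : ℝ) ≤ r := by exact_mod_cast hr2'
  have hr0 : (0 : ℝ) < r := by linarith
  have hr1 : (1 : ℝ) ≤ r := by linarith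
  have hrn : 1 ≤ r := by omega
  have hrn2 : 2 ≤ r := by omega
  obtain ⟨p1, p2, p3, p4, -⟩ := mem_PQ hp hrn2
  have hp1 : (1 : ℝ) ≤ p := by exact_mod_cast p1.one_lt.le
  set τ := (r : ℝ) ^ 7000 * Real.exp (-((r : ℝ) / 4)) with hτ
  have hτ0 : 0 ≤ τ := by positivity
  set R := (r : ℝ) ^ 6889 with hR
  have hR0 : 0 ≤ R := by positivity
  have hSS : ∀ u : ℝ, |u| ≤ (r : ℝ) ^ 22 → ‖SS r p ((1 / 10 : ℝ) + u * I)‖ ≤
      (K * (r : ℝ) ^ 51) * (Real.sqrt Real.pi * (r : ℝ) ^ 96 * (12 * (r : ℝ) ^ 32)) +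
      (r : ℝ) ^ 200 * (R * τ) := by
    intro u hu
    have hγre : (((1 / 10 : ℝ) : ℂ) + u * I).re = 1 / 10 := by simp
    have hγim : (((1 / 10 : ℝ) : ℂ) + u * I).im = u := by simp
    refine S_bound (p := p) hrn2 (by positivity) hτ0 hR0
      (fun t ht0 ht => hE r hr1' t u ht0 ht hu) ?_ ?_
    · intro d hd
      refine inv_bound hG hr hd ?_ ?_
      · rw [add_re, hγre]; norm_num
      · rw [add_im, hγim]
        simpa using hu
    · intro d hd e he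
      exact beta_L hr hd he
  have hA : ∀ d ∈ Dr r, ‖(∫ u in (-(r : ℝ) ^ 22)..((r : ℝ) ^ 22),
      KK ((r : ℝ) ^ 21) 0 ((1 / 10 : ℝ) + u * I) *
      exp (((1 / 10 : ℝ) + u * I) * (Real.log p : ℝ)) * (L d (1 / 2 + ((1 / 10 : ℝ) + u * I)))⁻¹) -
      mc d p * (p : ℂ) ^ (-(1 / 2) : ℂ) * (Real.sqrt Real.pi * (r : ℝ) ^ 21 : ℝ)‖ ≤ τ := by
    intro d hd
    have h21 : (3 : ℝ) ≤ (r : ℝ) ^ 21 := by
      calc (3 : ℝ) ≤ r := by linarith
        _ = (r : ℝ) ^ 1 := (pow_one _).symm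
        _ ≤ (r : ℝ) ^ 21 := pow_le_pow_right₀ hr1 (by norm_num)
    have g := gamma_ext hG d p1 (U := (r : ℝ) ^ 21) (V := (r : ℝ) ^ 22) (B1 := R) h21
      (by positivity) (fun s hs him => inv_bound hG hr hd hs (le_of_eq him))
    refine g.trans ?_
    exact gamma_err (p := (p : ℝ)) (S := S) (B := R) hr hp1 p4 hS0 hr3' hR0 le_rfl
  have habs := mm_abstract hG hrn p1 (Z := (K * (r : ℝ) ^ 51) *
      (Real.sqrt Real.pi * (r : ℝ) ^ 96 * (12 * (r : ℝ) ^ 32)) +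
      (r : ℝ) ^ 200 * (R * τ)) (by positivity) hτ0 hSS hA
  exact final_arith hr hp1 p4 hK (norm_nonneg _) hτ habs

theorem not_uniform (hG : GRHJ) {c C : ℝ} (hC : 0 < C) : ¬ UniformJ (1 / 100) c C := by
  intro h
  obtain ⟨K, hK, r₁, hup⟩ := mm_upper hG rfl hC h
  have ev := ((ev_small 14200 (1 / 1000) (by norm_num)).and
    ((tendsto_natCast_atTop_atTop (R := ℝ)).eventually_ge_atTop (24000 * K))).and
    (Filter.eventually_ge_atTop (max r₁ 20000))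
  obtain ⟨r, ⟨hsm, hKr⟩, hr⟩ := ev.exists
  have hr1' : r₁ ≤ r := (le_max_left _ _).trans hr
  have hr20 : 20000 ≤ r := (le_max_right _ _).trans hr
  have hrR : (20000 : ℝ) ≤ r := by exact_mod_cast hr20
  have hr0 : (0 : ℝ) < r := by linarith
  have hr1 : (1 : ℝ) ≤ r := by linarith
  have hP := PQ_card_lower r hr20
  have h19 : (r : ℝ) ≤ (r : ℝ) ^ 19 := by
    calc (r : ℝ) = (r : ℝ) ^ 1 := (pow_one _).symm
      _ ≤ (r : ℝ) ^ 19 := pow_le_pow_right₀ hr1 (by norm_num)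
  have hlow := lower_main (by omega : 1000 ≤ r) (by linarith)
  set P : ℝ := (#(PQ r) : ℝ) with hPdef
  have hP0 : 0 < P := by linarith
  set X : ℝ := (r : ℝ) ^ 100 with hX
  have hX0 : 0 < X := by positivity
  have hX1 : 1 ≤ X := one_le_pow₀ hr1
  -- the upper bound
  have hupper : ‖∑ p ∈ PQ r, mm r p‖ ≤ P * (X * (2 / 1000)) := by
    refine (norm_sum_le _ _).trans ?_
    have h1 : ∀ p ∈ PQ r, ‖mm r p‖ ≤ X * (2 / 1000) := by
      intro p hp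
      refine (hup r hr1' p hp).trans ?_
      have h2 : 24 * K * (r : ℝ) ^ 95 ≤ X * (1 / 1000) := by
        have h3 : (r : ℝ) ≤ (r : ℝ) ^ 5 := by
          calc (r : ℝ) = (r : ℝ) ^ 1 := (pow_one _).symm
            _ ≤ (r : ℝ) ^ 5 := pow_le_pow_right₀ hr1 (by norm_num)
        have h4 : 24 * K ≤ (r : ℝ) ^ 5 * (1 / 1000) := by linarith
        calc 24 * K * (r : ℝ) ^ 95 ≤ (r : ℝ) ^ 5 * (1 / 1000) * (r : ℝ) ^ 95 := by gcongr
          _ = X * (1 / 1000) := by rw [hX]; ring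
      linarith
    refine (sum_le_sum h1).trans ?_
    rw [sum_const, nsmul_eq_mul]
  have hE0 : 0 < Real.exp (-((r : ℝ) / 4)) := Real.exp_pos _
  have b1 : 68 * (r : ℝ) ^ 4 * X * Real.sqrt P ≤ X * (P / 1000) := by
    have h1 : (r : ℝ) ^ 9 ≤ Real.sqrt P := by
      apply Real.le_sqrt_of_sq_le
      calc ((r : ℝ) ^ 9) ^ 2 = (r : ℝ) ^ 18 := by ring
        _ ≤ (r : ℝ) ^ 19 := pow_le_pow_right₀ hr1 (by norm_num)
        _ ≤ P := hP
    have h2 : Real.sqrt P * Real.sqrt P = P := Real.mul_self_sqrt hP0.le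
    have h3 : 68000 * (r : ℝ) ^ 4 ≤ (r : ℝ) ^ 9 := by
      have h4 : (68000 : ℝ) ≤ (r : ℝ) ^ 5 := by
        calc (68000 : ℝ) ≤ 20000 ^ 5 := by norm_num
          _ ≤ (r : ℝ) ^ 5 := pow_le_pow_left₀ (by norm_num) hrR 5
      calc 68000 * (r : ℝ) ^ 4 ≤ (r : ℝ) ^ 5 * (r : ℝ) ^ 4 := by gcongr
        _ = (r : ℝ) ^ 9 := by ring
    have h5 : 0 ≤ Real.sqrt P := Real.sqrt_nonneg _
    have h6 := mul_le_mul_of_nonneg_right (h3.trans h1) h5
    rw [h2] at h6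
    calc 68 * (r : ℝ) ^ 4 * X * Real.sqrt P =
        X * (68000 * (r : ℝ) ^ 4 * Real.sqrt P / 1000) := by ring
      _ ≤ X * (P / 1000) := by gcongr
  have b2 : 2 * X ^ 2 * P * kg ((r : ℝ) ^ 4) ((r : ℝ) ^ 10) ≤ X * (P / 1000) := by
    have h1 : kg ((r : ℝ) ^ 4) ((r : ℝ) ^ 10) ≤ Real.exp (-((r : ℝ) / 4)) := by
      unfold kg
      apply Real.exp_le_exp.2
      have h2 : ((r : ℝ) ^ 10) ^ 2 / (16 * ((r : ℝ) ^ 4) ^ 2) = (r : ℝ) ^ 12 / 16 := by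
        field_simp
      rw [h2]
      have h3 : 4 * (r : ℝ) ≤ (r : ℝ) ^ 12 := by
        calc 4 * (r : ℝ) ≤ r * r := by nlinarith
          _ = (r : ℝ) ^ 2 := by ring
          _ ≤ (r : ℝ) ^ 12 := pow_le_pow_right₀ hr1 (by norm_num)
      linarith
    have h4 : 2 * X ≤ (r : ℝ) ^ 14200 := by
      calc 2 * (r : ℝ) ^ 100 ≤ r * (r : ℝ) ^ 100 := by
            gcongr
            linarith
        _ = (r : ℝ) ^ 101 := by ring
        _ ≤ (r : ℝ) ^ 14200 := pow_le_pow_right₀ hr1 (by norm_num)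
    calc 2 * X ^ 2 * P * kg ((r : ℝ) ^ 4) ((r : ℝ) ^ 10) =
        X * P * ((2 * X) * kg ((r : ℝ) ^ 4) ((r : ℝ) ^ 10)) := by ring
      _ ≤ X * P * ((r : ℝ) ^ 14200 * Real.exp (-((r : ℝ) / 4))) := by
          have := kg_pos ((r : ℝ) ^ 4) ((r : ℝ) ^ 10)
          gcongr
      _ ≤ X * P * (1 / 1000) := by gcongr
      _ = X * (P / 1000) := by ring
  have b4 : X / 100 * (P - 10) = X * P / 100 - X / 10 := by ring
  have b5 : 1000 * X ≤ X * P := by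
    have : 1000 ≤ P := by linarith
    nlinarith
  nlinarith

end Pool.Agent.H491R3.J
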