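import Pool.Agent.H491R3.J.InvL
import Pool.Agent.H491R3.Gauss

set_option autoImplicit false

namespace Pool.Agent.H491R3.J

open Complex MeasureTheory Set
open scoped ArithmeticFunction.Moebius

/-- coefficients of `1 / L(s, χ_{8d})` -/
noncomputable def mc (d : OS) (n : ℕ) : ℂ :=
  chi d (n : ZMod d.1) * ((ArithmeticFunction.moebius n : ℤ) : ℂ)

theorem mc_norm (d : OS) (n : ℕ) : ‖mc d n‖ ≤ 1 := by
  unfold mc
  rw [norm_mul]
  have h1 : ‖chi d (n : ZMod d.1)‖ ≤ 1 := DirichletCharacter.norm_le_one _ _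
  have h2 : ‖((ArithmeticFunction.moebius n : ℤ) : ℂ)‖ ≤ 1 := by
    rw [Complex.norm_intCast]
    exact_mod_cast ArithmeticFunction.abs_moebius_le_one
  calc _ ≤ 1 * 1 := mul_le_mul h1 h2 (norm_nonneg _) zero_le_one
    _ = 1 := by norm_num

theorem mc_prime (d : OS) {p : ℕ} (hp : p.Prime) :
    mc d p = -chi d (p : ZMod d.1) := by
  unfold mc
  rw [ArithmeticFunction.moebius_apply_prime hp]
  push_cast
  ring

theorem mc_summable (d : OS) {s : ℂ} (hs : 1 < s.re) : LSeriesSummable (mc d) s := by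
  have h := DirichletCharacter.LSeriesSummable_mul (chi d)
    (ArithmeticFunction.LSeriesSummable_moebius_iff.mpr hs)
  exact h

theorem inv_L_series (d : OS) {s : ℂ} (hs : 1 < s.re) : (L d s)⁻¹ = LSeries (mc d) s := by
  have h := DirichletCharacter.LSeries.mul_mu_eq_one (chi d) hs
  have h2 : L d s = LSeries (fun n : ℕ => chi d (n : ZMod d.1)) s :=
    DirichletCharacter.LFunction_eq_LSeries _ hs
  have h3 : LSeries (fun n : ℕ => chi d (n : ZMod d.1)) s * LSeries (mc d) s = 1 := h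
  rw [h2]
  exact inv_eq_of_mul_eq_one_right h3

theorem summable_five_half : Summable (fun n : ℕ => 1 / (n : ℝ) ^ (5 / 2 : ℝ)) :=
  Real.summable_one_div_nat_rpow.2 (by norm_num)

theorem term_norm_le (d : OS) (u : ℝ) (n : ℕ) :
    ‖LSeries.term (mc d) (1 / 2 + ((2 : ℝ) + u * I)) n‖ ≤ 1 / (n : ℝ) ^ (5 / 2 : ℝ) := by
  rcases Nat.eq_zero_or_pos n with h | h
  · subst h
    simp
  · rw [LSeries.term_of_ne_zero h.ne', norm_div, norm_natCast_cpow_of_pos h]
    have e : (1 / 2 + (((2 : ℝ) : ℂ) + u * I)).re = 5 / 2 := by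
      simp
      norm_num
    rw [e]
    gcongr
    exact mc_norm d n

/-- the integral of one term of the Dirichlet series -/
theorem term_integral (d : OS) {U V l : ℝ} (n : ℕ) (hn : 0 < n) :
    (∫ u in (-V)..V, KK U 0 ((2 : ℝ) + u * I) * exp (((2 : ℝ) + u * I) * l) *
      LSeries.term (mc d) (1 / 2 + ((2 : ℝ) + u * I)) n) =
    mc d n * (n : ℂ) ^ (-(1 / 2) : ℂ) * ∫ u in (-V)..V, KK U 0 ((2 : ℝ) + u * I) *
      exp (((2 : ℝ) + u * I) * ((l - Real.log n : ℝ) : ℂ)) := by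
  rw [← intervalIntegral.integral_const_mul]
  apply intervalIntegral.integral_congr
  intro u _
  simp only
  have hn' : (n : ℂ) ≠ 0 := by exact_mod_cast hn.ne'
  rw [LSeries.term_of_ne_zero hn.ne', div_eq_mul_inv, ← cpow_neg]
  have e1 : -(1 / 2 + (((2 : ℝ) : ℂ) + u * I)) = -(1 / 2) + -(((2 : ℝ) : ℂ) + u * I) := by ring
  rw [e1, cpow_add _ _ hn']
  have e2 : (n : ℂ) ^ (-(((2 : ℝ) : ℂ) + u * I)) = exp (-(((2 : ℝ) : ℂ) + u * I) * (Real.log n : ℂ)) := by
    rw [cpow_def_of_ne_zero hn', natCast_log]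
    congr 1
    ring
  have e3 : exp ((((2 : ℝ) : ℂ) + u * I) * ((l - Real.log n : ℝ) : ℂ)) =
      exp ((((2 : ℝ) : ℂ) + u * I) * l) * exp (-(((2 : ℝ) : ℂ) + u * I) * (Real.log n : ℂ)) := by
    rw [← exp_add]
    congr 1
    push_cast
    ring
  rw [e2, e3]
  ring

theorem exp_xy_norm (x y l : ℝ) : ‖exp (((x : ℂ) + y * I) * (l : ℂ))‖ = Real.exp (x * l) := by
  rw [Complex.norm_exp]
  simp

theorem abs_log_ge {p n : ℕ} (hp : 0 < p) (hn : 0 < n) (hne : n ≠ p) :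
    1 / (2 * (p : ℝ)) ≤ |Real.log p - Real.log n| := by
  have hp' : (0 : ℝ) < p := by exact_mod_cast hp
  have hn' : (0 : ℝ) < n := by exact_mod_cast hn
  have hp1 : (1 : ℝ) ≤ p := by exact_mod_cast hp
  rcases lt_or_gt_of_ne hne with h | h
  · -- n < p
    have h1 : (n : ℝ) + 1 ≤ p := by exact_mod_cast h
    have h2 := Real.one_sub_inv_le_log_of_pos (show 0 < (p : ℝ) / n by positivity)
    rw [Real.log_div hp'.ne' hn'.ne'] at h2
    refine le_trans ?_ (le_abs_self _)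
    refine le_trans ?_ h2
    rw [inv_div, div_le_iff₀ (by positivity)]
    have : (n : ℝ) / p * p = n := by field_simp
    nlinarith
  · have h1 : (p : ℝ) + 1 ≤ n := by exact_mod_cast h
    have h2 := Real.one_sub_inv_le_log_of_pos (show 0 < (n : ℝ) / p by positivity)
    rw [Real.log_div hn'.ne' hp'.ne'] at h2
    rw [abs_sub_comm]
    refine le_trans ?_ (le_abs_self _)
    refine le_trans ?_ h2
    rw [inv_div]
    have h3 : (p : ℝ) / n ≤ p / (p + 1) := by gcongr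
    have h4 : 1 / (2 * (p : ℝ)) ≤ 1 - p / (p + 1) := by
      have : 1 - (p : ℝ) / (p + 1) = 1 / (p + 1) := by field_simp; ring
      rw [this]
      apply one_div_le_one_div_of_le (by positivity)
      linarith
    linarith

/-- bound for the integral of a term which is not the main one -/
theorem one_term {U V l : ℝ} (hU : 3 ≤ U) (hV : 0 ≤ V) :
    ‖∫ u in (-V)..V, KK U 0 ((2 : ℝ) + u * I) * exp (((2 : ℝ) + u * I) * (l : ℂ))‖ ≤
      Real.exp (2 * l) * (8 * U) * (Real.exp (-(U ^ 2 * l ^ 2 / 8)) +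
        Real.exp (-(V ^ 2 / (2 * U ^ 2)))) ∧
    ‖(∫ u in (-V)..V, KK U 0 ((2 : ℝ) + u * I) * exp (((2 : ℝ) + u * I) * (l : ℂ))) -
      (Real.sqrt Real.pi * U : ℝ) * (Real.exp (-(U ^ 2 * l ^ 2 / 4)) : ℝ)‖ ≤
      Real.exp (2 * l) * (8 * U) * Real.exp (-(V ^ 2 / (2 * U ^ 2))) := by
  have hU0 : 0 < U := by linarith
  have h := gauss_seg hU0 hV 2 0 l
  simp only [zero_sub, zero_add, ofReal_zero, zero_mul, exp_zero, mul_one] at h
  have hexp1 : Real.exp (4 / U ^ 2) ≤ 2 := by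
    have h1 : 4 / U ^ 2 ≤ 1 / 2 := by
      rw [div_le_div_iff₀ (by positivity) (by norm_num)]
      nlinarith
    have h2 : Real.exp (1 / 2) ≤ 2 := by
      have h3 : Real.exp (1 / 2) ^ 2 ≤ 2 ^ 2 := by
        rw [← Real.exp_nat_mul]
        norm_num
        have := Real.exp_one_lt_d9
        linarith
      exact le_of_sq_le_sq h3 (by norm_num)
    exact (Real.exp_le_exp.2 h1).trans h2
  have hexp2 : Real.exp (8 / U ^ 2) ≤ 4 := by
    have : Real.exp (8 / U ^ 2) = Real.exp (4 / U ^ 2) * Real.exp (4 / U ^ 2) := by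
      rw [← Real.exp_add]; congr 1; ring
    rw [this]
    nlinarith [Real.exp_pos (4 / U ^ 2)]
  have hs1 : Real.sqrt (2 * Real.pi) ≤ 3 := by
    rw [Real.sqrt_le_left (by norm_num)]
    have := Real.pi_lt_d2
    linarith
  have hs2 : Real.sqrt Real.pi ≤ 2 := by
    rw [Real.sqrt_le_left (by norm_num)]
    have := Real.pi_lt_d2
    linarith
  have hB : ‖(∫ u in (-V)..V, KK U 0 ((2 : ℝ) + u * I) * exp (((2 : ℝ) + u * I) * (l : ℂ))) -
      (Real.sqrt Real.pi * U : ℝ) * (Real.exp (-(U ^ 2 * l ^ 2 / 4)) : ℝ)‖ ≤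
      Real.exp (2 * l) * (8 * U) * Real.exp (-(V ^ 2 / (2 * U ^ 2))) := by
    refine h.trans ?_
    rw [Real.exp_add]
    have e : (2 : ℝ) ^ 2 / U ^ 2 = 4 / U ^ 2 := by norm_num
    rw [e]
    have h1 : Real.exp (4 / U ^ 2) * Real.sqrt (2 * Real.pi) ≤ 8 := by
      nlinarith [Real.sqrt_nonneg (2 * Real.pi), Real.exp_pos (4 / U ^ 2)]
    have h2 : 0 ≤ Real.exp (2 * l) * Real.exp (-(V ^ 2 / (2 * U ^ 2))) * U := by positivity
    nlinarith [mul_le_mul_of_nonneg_right h1 h2]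
  refine ⟨?_, hB⟩
  have hA : ‖(((Real.sqrt Real.pi * U : ℝ) : ℂ)) * (Real.exp (-(U ^ 2 * l ^ 2 / 4)) : ℝ)‖ ≤
      Real.exp (2 * l) * (8 * U) * Real.exp (-(U ^ 2 * l ^ 2 / 8)) := by
    rw [norm_mul, norm_real, norm_real, Real.norm_eq_abs, Real.norm_eq_abs, abs_of_pos (Real.exp_pos _),
      abs_of_nonneg (by positivity)]
    have h1 : Real.exp (-(U ^ 2 * l ^ 2 / 4)) ≤
        Real.exp (-(U ^ 2 * l ^ 2 / 8)) * (Real.exp (8 / U ^ 2) * Real.exp (2 * l)) := by
      rw [← Real.exp_add, ← Real.exp_add]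
      apply Real.exp_le_exp.2
      have h2 : 0 ≤ U ^ 2 * l ^ 2 / 8 + 2 * l + 8 / U ^ 2 := by
        have : U ^ 2 * l ^ 2 / 8 + 2 * l + 8 / U ^ 2 = (U * l + 8 / U) ^ 2 / 8 := by
          field_simp
          ring
        rw [this]
        positivity
      linarith
    calc Real.sqrt Real.pi * U * Real.exp (-(U ^ 2 * l ^ 2 / 4)) ≤
        2 * U * (Real.exp (-(U ^ 2 * l ^ 2 / 8)) * (4 * Real.exp (2 * l))) := by
          have h3 := h1.trans (show _ ≤ Real.exp (-(U ^ 2 * l ^ 2 / 8)) * (4 * Real.exp (2 * l)) by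
            gcongr)
          gcongr
      _ = _ := by ring
  have e : (∫ u in (-V)..V, KK U 0 ((2 : ℝ) + u * I) * exp (((2 : ℝ) + u * I) * (l : ℂ))) =
      ((∫ u in (-V)..V, KK U 0 ((2 : ℝ) + u * I) * exp (((2 : ℝ) + u * I) * (l : ℂ))) -
      (Real.sqrt Real.pi * U : ℝ) * (Real.exp (-(U ^ 2 * l ^ 2 / 4)) : ℝ)) +
      (Real.sqrt Real.pi * U : ℝ) * (Real.exp (-(U ^ 2 * l ^ 2 / 4)) : ℝ) := by ring
  rw [e]
  refine (norm_add_le _ _).trans ?_
  linarith

theorem gamma_right (d : OS) {p : ℕ} (hp : p.Prime) {U V : ℝ} (hU : 3 ≤ U) (hV : 0 ≤ V) :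
    ‖(∫ u in (-V)..V, KK U 0 ((2 : ℝ) + u * I) * exp (((2 : ℝ) + u * I) * (Real.log p : ℝ)) *
      (L d (1 / 2 + ((2 : ℝ) + u * I)))⁻¹) -
      mc d p * (p : ℂ) ^ (-(1 / 2) : ℂ) * (Real.sqrt Real.pi * U : ℝ)‖ ≤
      (p : ℝ) ^ 2 * (8 * U) * (Real.exp (-(U ^ 2 / (32 * (p : ℝ) ^ 2))) +
        Real.exp (-(V ^ 2 / (2 * U ^ 2)))) * ∑' n : ℕ, 1 / (n : ℝ) ^ (5 / 2 : ℝ) := by
  have hU0 : 0 < U := by linarith
  have hp0 : (0 : ℝ) < p := by exact_mod_cast hp.pos
  set B := (p : ℝ) ^ 2 * (8 * U) * (Real.exp (-(U ^ 2 / (32 * (p : ℝ) ^ 2))) +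
        Real.exp (-(V ^ 2 / (2 * U ^ 2)))) with hB
  have hB0 : 0 ≤ B := by positivity
  set F : ℕ → ℝ → ℂ := fun n u => KK U 0 ((2 : ℝ) + u * I) *
    exp (((2 : ℝ) + u * I) * (Real.log p : ℝ)) *
      LSeries.term (mc d) (1 / 2 + ((2 : ℝ) + u * I)) n with hF
  have hKK : ∀ u : ℝ, ‖KK U 0 (((2 : ℝ) : ℂ) + u * I)‖ ≤ Real.exp (4 / U ^ 2) := by
    intro u
    rw [KK_norm U 0 2 u hU0]
    apply Real.exp_le_exp.2
    gcongr
    nlinarith [sq_nonneg (u - 0)]
  have hpath : Continuous (fun t : ℝ => (((2 : ℝ) : ℂ) + t * I)) := by fun_prop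
  have hKc : Continuous (fun u : ℝ => KK U 0 (((2 : ℝ) : ℂ) + u * I)) := by
    unfold KK; fun_prop
  have hsum : HasSum (fun n => ∫ u in (-V)..V, F n u) (∫ u in (-V)..V,
      KK U 0 ((2 : ℝ) + u * I) * exp (((2 : ℝ) + u * I) * (Real.log p : ℝ)) *
      (L d (1 / 2 + ((2 : ℝ) + u * I)))⁻¹) := by
    refine intervalIntegral.hasSum_integral_of_dominated_convergence
      (fun n _ => Real.exp (4 / U ^ 2) * Real.exp (2 * Real.log p) * (1 / (n : ℝ) ^ (5 / 2 : ℝ)))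
      ?_ ?_ ?_ ?_ ?_
    · intro n
      apply Continuous.aestronglyMeasurable
      simp only [hF]
      rcases Nat.eq_zero_or_pos n with h | h
      · subst h
        simp only [LSeries.term_zero, mul_zero]
        exact continuous_const
      · have hn' : (n : ℂ) ≠ 0 := by exact_mod_cast h.ne'
        have e : (fun u : ℝ => LSeries.term (mc d) (1 / 2 + (((2 : ℝ) : ℂ) + u * I)) n) =
            fun u : ℝ => mc d n / (n : ℂ) ^ (1 / 2 + (((2 : ℝ) : ℂ) + u * I)) := by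
          funext u; rw [LSeries.term_of_ne_zero h.ne']
        have hc : Continuous (fun u : ℝ => LSeries.term (mc d) (1 / 2 + (((2 : ℝ) : ℂ) + u * I)) n) := by
          rw [e]
          apply continuous_const.div
          · exact (continuous_const.add hpath).const_cpow (Or.inl hn')
          · intro u
            rw [Ne, cpow_eq_zero_iff]
            exact fun h => hn' h.1
        exact (hKc.mul (by fun_prop)).mul hc
    · intro n
      refine Filter.Eventually.of_forall fun u _ => ?_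
      simp only [hF]
      rw [norm_mul, norm_mul]
      have h1 := hKK u
      have h2 := term_norm_le d u n
      have h3 : ‖exp ((((2 : ℝ) : ℂ) + u * I) * (Real.log p : ℝ))‖ = Real.exp (2 * Real.log p) :=
        exp_xy_norm 2 u (Real.log p)
      rw [h3]
      gcongr
    · exact Filter.Eventually.of_forall fun u _ => summable_five_half.mul_left _
    · exact continuous_const.intervalIntegrable _ _
    · refine Filter.Eventually.of_forall fun u _ => ?_
      have hre : 1 < (1 / 2 + (((2 : ℝ) : ℂ) + u * I)).re := by simp; norm_num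
      rw [inv_L_series d hre]
      exact ((mc_summable d hre).hasSum).mul_left _
  set m : ℂ := mc d p * (p : ℂ) ^ (-(1 / 2) : ℂ) * (Real.sqrt Real.pi * U : ℝ) with hm
  have hdiff : HasSum (fun n => (∫ u in (-V)..V, F n u) - if n = p then m else 0) ((∫ u in (-V)..V,
      KK U 0 ((2 : ℝ) + u * I) * exp (((2 : ℝ) + u * I) * (Real.log p : ℝ)) *
      (L d (1 / 2 + ((2 : ℝ) + u * I)))⁻¹) - m) := hsum.sub (hasSum_ite_eq p m)
  refine hdiff.norm_le_of_bounded ((summable_five_half.hasSum).mul_left B) ?_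
  intro n
  rcases Nat.eq_zero_or_pos n with h | h
  · subst h
    have : (0 : ℕ) ≠ p := hp.ne_zero.symm
    simp only [hF, LSeries.term_zero, mul_zero, this, if_false, sub_zero]
    simp
  · have hn0 : (0 : ℝ) < n := by exact_mod_cast h
    have hint := term_integral d (U := U) (V := V) (l := Real.log p) n h
    have hcpow : ‖(n : ℂ) ^ (-(1 / 2) : ℂ)‖ = (n : ℝ) ^ (-(1 / 2) : ℝ) := by
      rw [norm_natCast_cpow_of_pos h]
      congr 1
      simp
    obtain ⟨o1, o2⟩ := one_term (l := Real.log p - Real.log n) hU hV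
    have hexp : Real.exp (2 * (Real.log p - Real.log n)) = (p : ℝ) ^ 2 / (n : ℝ) ^ 2 := by
      rw [← Real.log_div hp0.ne' hn0.ne', mul_comm, Real.exp_mul, Real.exp_log (by positivity)]
      norm_num
      rw [div_pow]
    rw [hexp] at o1 o2
    have hpow : (n : ℝ) ^ (-(1 / 2) : ℝ) * (1 / (n : ℝ) ^ 2) = 1 / (n : ℝ) ^ (5 / 2 : ℝ) := by
      have a1 : 1 / (n : ℝ) ^ 2 = (n : ℝ) ^ (-2 : ℝ) := by
        rw [Real.rpow_neg hn0.le, ← Real.rpow_natCast, one_div]
        norm_num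
      have a2 : 1 / (n : ℝ) ^ (5 / 2 : ℝ) = (n : ℝ) ^ (-(5 / 2) : ℝ) := by
        rw [Real.rpow_neg hn0.le, one_div]
      rw [a1, a2, ← Real.rpow_add hn0]
      norm_num
    by_cases hnp : n = p
    · rw [if_pos hnp]
      simp only [hF]
      rw [hint]
      subst hnp
      rw [sub_self] at o2 ⊢
      rw [hm]
      have e0 : Real.exp (-(U ^ 2 * (0 : ℝ) ^ 2 / 4)) = 1 := by norm_num
      rw [e0, ofReal_one, mul_one] at o2
      rw [← mul_sub, norm_mul, norm_mul, hcpow]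
      calc ‖mc d n‖ * (n : ℝ) ^ (-(1 / 2) : ℝ) * _ ≤ 1 * (n : ℝ) ^ (-(1 / 2) : ℝ) *
          ((n : ℝ) ^ 2 / (n : ℝ) ^ 2 * (8 * U) * Real.exp (-(V ^ 2 / (2 * U ^ 2)))) := by
            have := mc_norm d n
            gcongr
        _ = ((n : ℝ) ^ 2 * (8 * U) * Real.exp (-(V ^ 2 / (2 * U ^ 2)))) *
            ((n : ℝ) ^ (-(1 / 2) : ℝ) * (1 / (n : ℝ) ^ 2)) := by ring
        _ ≤ B * ((n : ℝ) ^ (-(1 / 2) : ℝ) * (1 / (n : ℝ) ^ 2)) := by
            apply mul_le_mul_of_nonneg_right _ (by positivity)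
            rw [hB]
            apply mul_le_mul_of_nonneg_left _ (by positivity)
            have := Real.exp_pos (-(U ^ 2 / (32 * (n : ℝ) ^ 2)))
            linarith
        _ = _ := by rw [hpow]
    · rw [if_neg hnp, sub_zero]
      simp only [hF]
      rw [hint, norm_mul, norm_mul, hcpow]
      have hl := abs_log_ge hp.pos h hnp
      have hl2 : Real.exp (-(U ^ 2 * (Real.log p - Real.log n) ^ 2 / 8)) ≤
          Real.exp (-(U ^ 2 / (32 * (p : ℝ) ^ 2))) := by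
        apply Real.exp_le_exp.2
        have h1 : (1 / (2 * (p : ℝ))) ^ 2 ≤ (Real.log p - Real.log n) ^ 2 := by
          rw [← sq_abs (Real.log p - Real.log n)]
          exact pow_le_pow_left₀ (by positivity) hl 2
        have h2 : U ^ 2 / (32 * (p : ℝ) ^ 2) = U ^ 2 * (1 / (2 * (p : ℝ))) ^ 2 / 8 := by
          field_simp
          ring
        rw [h2]
        have : U ^ 2 * (1 / (2 * (p : ℝ))) ^ 2 ≤ U ^ 2 * (Real.log p - Real.log n) ^ 2 := by gcongr
        linarith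
      calc ‖mc d n‖ * (n : ℝ) ^ (-(1 / 2) : ℝ) * _ ≤ 1 * (n : ℝ) ^ (-(1 / 2) : ℝ) *
          ((p : ℝ) ^ 2 / (n : ℝ) ^ 2 * (8 * U) * (Real.exp (-(U ^ 2 / (32 * (p : ℝ) ^ 2))) +
            Real.exp (-(V ^ 2 / (2 * U ^ 2))))) := by
            have h1 := mc_norm d n
            have h2 := o1.trans (show _ ≤ (p : ℝ) ^ 2 / (n : ℝ) ^ 2 * (8 * U) *
              (Real.exp (-(U ^ 2 / (32 * (p : ℝ) ^ 2))) + Real.exp (-(V ^ 2 / (2 * U ^ 2)))) by
                gcongr)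
            gcongr
        _ = B * ((n : ℝ) ^ (-(1 / 2) : ℝ) * (1 / (n : ℝ) ^ 2)) := by rw [hB]; ring
        _ = _ := by rw [hpow]

/-- extraction of the coefficient of `p` from `1 / L` -/
theorem gamma_ext (hG : GRHJ) (d : OS) {p : ℕ} (hp : p.Prime) {U V B1 : ℝ} (hU : 3 ≤ U)
    (hV : 0 ≤ V) (hB1 : ∀ s : ℂ, 3 / 5 ≤ s.re → |s.im| = V → ‖(L d s)⁻¹‖ ≤ B1) :
    ‖(∫ u in (-V)..V, KK U 0 ((1 / 10 : ℝ) + u * I) *
      exp (((1 / 10 : ℝ) + u * I) * (Real.log p : ℝ)) * (L d (1 / 2 + ((1 / 10 : ℝ) + u * I)))⁻¹) -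
      mc d p * (p : ℂ) ^ (-(1 / 2) : ℂ) * (Real.sqrt Real.pi * U : ℝ)‖ ≤
      (p : ℝ) ^ 2 * (8 * U) * (Real.exp (-(U ^ 2 / (32 * (p : ℝ) ^ 2))) +
        Real.exp (-(V ^ 2 / (2 * U ^ 2)))) * (∑' n : ℕ, 1 / (n : ℝ) ^ (5 / 2 : ℝ)) +
      4 * (Real.exp ((4 - V ^ 2) / U ^ 2) * (p : ℝ) ^ 2 * B1) := by
  have hU0 : 0 < U := by linarith
  have hp0 : (0 : ℝ) < p := by exact_mod_cast hp.pos
  have hp1 : (1 : ℝ) ≤ p := by exact_mod_cast hp.pos
  have hlp : 0 ≤ Real.log p := Real.log_nonneg hp1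
  set f : ℂ → ℂ := fun z => KK U 0 z * exp (z * (Real.log p : ℝ)) * (L d (1 / 2 + z))⁻¹ with hf
  set R := ∫ u in (-V)..V, f ((2 : ℝ) + u * I) with hR
  have hright := gamma_right d hp hU hV
  -- shift the segment
  have hdiff : DifferentiableOn ℂ f (uIcc (1 / 10 : ℝ) 2 ×ℂ uIcc (-V) V) := by
    intro z hz
    rw [mem_reProdIm, uIcc_of_le (by norm_num)] at hz
    have hre : 1 / 2 < (1 / 2 + z).re := by
      have := hz.1.1
      simp
      linarith
    have h1 : DifferentiableAt ℂ (fun z => L d (1 / 2 + z)) z :=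
      ((L_diff d) (1 / 2 + z)).comp z (by fun_prop)
    have h2 : DifferentiableAt ℂ (fun z => (L d (1 / 2 + z))⁻¹) z := h1.inv (L_ne_zero hG d hre)
    have h3 : DifferentiableAt ℂ (fun z => KK U 0 z * exp (z * (Real.log p : ℝ))) z := by
      unfold KK; fun_prop
    exact (h3.mul h2).differentiableWithinAt
  have hcont : ∀ x : ℝ, 1 / 10 ≤ x → x ≤ 2 → IntervalIntegrable (fun u : ℝ => f (x + u * I))
      volume (-V) V := by
    intro x hx hx2
    apply ContinuousOn.intervalIntegrable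
    apply hdiff.continuousOn.comp (by fun_prop)
    intro u hu
    rw [mem_reProdIm]
    constructor
    · simp only [add_re, ofReal_re, mul_re, I_re, mul_zero, ofReal_im, I_im, mul_one, sub_self,
        add_zero]
      rw [uIcc_of_le (by norm_num)]
      exact ⟨hx, hx2⟩
    · simpa using hu
  have hrect := Complex.integral_boundary_rect_eq_zero_of_differentiableOn f
    ((1 / 10 : ℝ) + (-V : ℝ) * I) ((2 : ℝ) + (V : ℝ) * I) (by simpa using hdiff)
  simp only [add_re, ofReal_re, mul_re, I_re, mul_zero, ofReal_im, I_im, mul_one, sub_self,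
    add_zero, add_im, mul_im, zero_add, smul_eq_mul] at hrect
  set H1 := ∫ x in (1 / 10 : ℝ)..2, f (x + ((-V : ℝ) : ℂ) * I) with hH1
  set H2 := ∫ x in (1 / 10 : ℝ)..2, f (x + (V : ℂ) * I) with hH2
  have hhor : ∀ y : ℝ, |y| = V → ‖∫ x in (1 / 10 : ℝ)..2, f (x + (y : ℂ) * I)‖ ≤
      (Real.exp ((4 - V ^ 2) / U ^ 2) * (p : ℝ) ^ 2 * B1) * |2 - 1 / 10| := by
    intro y hy
    apply intervalIntegral.norm_integral_le_of_norm_le_const
    intro x hx
    rw [uIoc_of_le (by norm_num)] at hx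
    simp only [hf]
    rw [norm_mul, norm_mul, KK_norm U 0 x y hU0]
    have h1 : Real.exp ((x ^ 2 - (y - 0) ^ 2) / U ^ 2) ≤ Real.exp ((4 - V ^ 2) / U ^ 2) := by
      apply Real.exp_le_exp.2
      apply div_le_div_of_nonneg_right _ (by positivity)
      have : (y - 0) ^ 2 = V ^ 2 := by rw [sub_zero, ← sq_abs, hy]
      rw [this]
      nlinarith [hx.1, hx.2]
    have h2 : ‖exp (((x : ℂ) + y * I) * (Real.log p : ℝ))‖ ≤ (p : ℝ) ^ 2 := by
      rw [exp_xy_norm x y (Real.log p)]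
      calc Real.exp (x * Real.log p) ≤ Real.exp (2 * Real.log p) := by
            apply Real.exp_le_exp.2
            nlinarith [hx.2]
        _ = (p : ℝ) ^ 2 := by
            rw [mul_comm, Real.exp_mul, Real.exp_log hp0]; norm_num
    have h3 := hB1 (1 / 2 + ((x : ℂ) + y * I)) (by simp; linarith [hx.1]) (by simpa using hy)
    gcongr
  have h1 := hhor (-V) (by rw [abs_neg, abs_of_nonneg hV])
  have h2 := hhor V (abs_of_nonneg hV)
  have habs : |(2 : ℝ) - 1 / 10| ≤ 2 := by rw [abs_of_pos (by norm_num)]; norm_num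
  have hE : 0 ≤ Real.exp ((4 - V ^ 2) / U ^ 2) * (p : ℝ) ^ 2 * B1 := by
    have := hB1 (1 / 2 + ((1 : ℝ) + V * I)) (by simp; norm_num) (by simpa using abs_of_nonneg hV)
    have := (norm_nonneg _).trans this
    positivity
  set E := Real.exp ((4 - V ^ 2) / U ^ 2) * (p : ℝ) ^ 2 * B1 with hEdef
  have hI : (∫ u in (-V)..V, f ((1 / 10 : ℝ) + u * I)) = R + (-I) * (H1 - H2) := by
    have e1 : I * (∫ u in (-V)..V, f ((1 / 10 : ℝ) + u * I)) = (H1 - H2) + I * R := by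
      rw [hH1, hH2, hR]
      linear_combination -hrect
    have e2 : (-I) * (I * (∫ u in (-V)..V, f ((1 / 10 : ℝ) + u * I))) =
        ∫ u in (-V)..V, f ((1 / 10 : ℝ) + u * I) := by
      rw [← mul_assoc]; simp
    rw [← e2, e1]
    ring_nf
    rw [I_sq]
    ring
  have hgoal : (∫ u in (-V)..V, KK U 0 ((1 / 10 : ℝ) + u * I) *
      exp (((1 / 10 : ℝ) + u * I) * (Real.log p : ℝ)) * (L d (1 / 2 + ((1 / 10 : ℝ) + u * I)))⁻¹) =
      ∫ u in (-V)..V, f ((1 / 10 : ℝ) + u * I) := rfl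
  rw [hgoal, hI]
  have hR' : R = (∫ u in (-V)..V, KK U 0 ((2 : ℝ) + u * I) *
      exp (((2 : ℝ) + u * I) * (Real.log p : ℝ)) * (L d (1 / 2 + ((2 : ℝ) + u * I)))⁻¹) := rfl
  rw [hR']
  have hH : ‖(-I) * (H1 - H2)‖ ≤ 4 * E := by
    rw [norm_mul, norm_neg, norm_I, one_mul]
    refine (norm_sub_le _ _).trans ?_
    have a1 : ‖H1‖ ≤ E * 2 := h1.trans (mul_le_mul_of_nonneg_left habs hE)
    have a2 : ‖H2‖ ≤ E * 2 := h2.trans (mul_le_mul_of_nonneg_left habs hE)
    linarith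
  rw [add_sub_right_comm]
  exact (norm_add_le _ _).trans (add_le_add hright hH)

end Pool.Agent.H491R3.J
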