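import Pool.Agent.H491R3.J.Setup

set_option autoImplicit false

namespace Pool.Agent.H491R3.J

open Finset Complex

/-- the sums over the primes, weighted with the Gaussian -/
theorem pair_char2 {Y N : ℕ} (hY : 1 ≤ Y) {Q : Finset ℕ} {B C : ℝ} (hB : 0 < B)
    (hQ : ∀ p ∈ Q, p.Prime ∧ p ≠ 2 ∧ B ≤ p ∧ p ≤ C) (ε : ℕ → ℕ → ℝ) (hε : ∀ h p, |ε h p| ≤ 1)
    (hQN : (#Q : ℝ) * (N / B ^ 2 + C ^ 2) ≤ 3 * N) :
    ∑ n ∈ Ico N (2 * N), ∑ m ∈ Ico N (2 * N), (if n = m then 0 else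
      kg Y ((n : ℝ) - m) * |∑ p ∈ Q, ε (n - m + (m - n)) p * ((jacobiSym ((n : ℤ) * m) p : ℤ) : ℝ)|) ≤
    68 * (Y : ℝ) * N * Real.sqrt #Q + 2 * (N : ℝ) ^ 2 * #Q * kg Y B := by
  have hY1 : (1 : ℝ) ≤ Y := by exact_mod_cast hY
  have hN0 : (0 : ℝ) ≤ N := Nat.cast_nonneg N
  set b : ℕ → ℕ → ℝ := fun n m =>
    kg Y ((n : ℝ) - m) * |∑ p ∈ Q, ε (n - m + (m - n)) p * ((jacobiSym ((n : ℤ) * m) p : ℤ) : ℝ)| with hbdef
  have h1 := pair_sum N b (fun n m => by
    have := kg_pos (Y : ℝ) ((n : ℝ) - m)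
    positivity) (fun n m => by
    simp only [hbdef]
    rw [mul_comm (n : ℤ) m, add_comm (n - m) (m - n)]
    congr 1
    unfold kg
    rw [← neg_sub (n : ℝ) m, neg_sq])
  refine h1.trans ?_
  have hbound : ∀ h ∈ Ioc 0 N, ∑ m ∈ Ico N (2 * N), b (m + h) m ≤
      kg Y h * (2 * N * Real.sqrt #Q) + N * #Q * kg Y B := by
    intro h hh
    rw [mem_Ioc] at hh
    have e : ∀ m ∈ Ico N (2 * N), b (m + h) m =
        kg Y h * |∑ p ∈ Q, ε h p * fp p h m| := by
      intro m _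
      simp only [hbdef]
      congr 1
      · push_cast
        rw [add_sub_cancel_left]
      · congr 1
        apply sum_congr rfl
        intro p _
        have hdist : (m + h - m + (m - (m + h))) = h := by omega
        unfold fp
        rw [hdist]
        congr 3
        push_cast
        ring
    rw [sum_congr rfl e, ← mul_sum]
    have hk := kg_pos (Y : ℝ) (h : ℝ)
    rcases lt_or_ge (h : ℝ) B with hlt | hge
    · -- the essential range
      have hne : ∀ p ∈ Q, ((h : ℤ) : ZMod p) ≠ 0 := by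
        intro p hp hz
        obtain ⟨-, -, p3, -⟩ := hQ p hp
        rw [Int.cast_natCast, ZMod.natCast_eq_zero_iff] at hz
        have h2 := Nat.le_of_dvd hh.1 hz
        have h3 : (p : ℝ) ≤ h := by exact_mod_cast h2
        linarith
      have hsm := second_moment hB hQ hne (ε h) (fun p _ => hε h p) N N
      have hIco : ∑ m ∈ Ico N (2 * N), |∑ p ∈ Q, ε h p * fp p h m| =
          ∑ i ∈ range N, |∑ p ∈ Q, ε h p * fp p h (N + i)| := by
        rw [Finset.sum_Ico_eq_sum_range]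
        have : 2 * N - N = N := by omega
        rw [this]
        push_cast
        rfl
      rw [hIco]
      have hcs : (∑ i ∈ range N, |∑ p ∈ Q, ε h p * fp p h (N + i)|) ^ 2 ≤
          N * ∑ i ∈ range N, (∑ p ∈ Q, ε h p * fp p h (N + i)) ^ 2 := by
        have := sq_sum_le_card_mul_sum_sq (s := range N)
          (f := fun i : ℕ => |∑ p ∈ Q, ε h p * fp p h (N + i)|)
        simpa using this
      have hfin : ∑ i ∈ range N, |∑ p ∈ Q, ε h p * fp p h (N + i)| ≤ 2 * N * Real.sqrt #Q := by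
        have h2 : (2 * (N : ℝ) * Real.sqrt #Q) ^ 2 = 4 * N ^ 2 * #Q := by
          rw [mul_pow, Real.sq_sqrt (Nat.cast_nonneg _)]
          ring
        apply le_of_sq_le_sq _ (by positivity)
        rw [h2]
        refine hcs.trans ?_
        have h3 : ∑ i ∈ range N, (∑ p ∈ Q, ε h p * fp p h (N + i)) ^ 2 ≤ 4 * N * #Q := by
          refine hsm.trans ?_
          have h4 : (0 : ℝ) ≤ #Q := Nat.cast_nonneg _
          have := mul_le_mul_of_nonneg_left hQN h4
          nlinarith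
        calc (N : ℝ) * _ ≤ N * (4 * N * #Q) := mul_le_mul_of_nonneg_left h3 hN0
          _ = _ := by ring
      have h0 : 0 ≤ (N : ℝ) * #Q * kg Y B := by
        have := kg_pos (Y : ℝ) B
        positivity
      have := mul_le_mul_of_nonneg_left hfin hk.le
      linarith
    · -- the negligible range
      have h2 : kg Y h ≤ kg Y B := by
        unfold kg
        apply Real.exp_le_exp.2
        have : B ^ 2 / (16 * (Y : ℝ) ^ 2) ≤ (h : ℝ) ^ 2 / (16 * (Y : ℝ) ^ 2) := by gcongr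
        linarith
      have h3 : ∑ m ∈ Ico N (2 * N), |∑ p ∈ Q, ε h p * fp p h m| ≤ N * #Q := by
        have h4 : ∀ m ∈ Ico N (2 * N), |∑ p ∈ Q, ε h p * fp p h m| ≤ #Q := by
          intro m _
          refine (abs_sum_le_sum_abs _ _).trans ?_
          calc ∑ p ∈ Q, |ε h p * fp p h m| ≤ ∑ p ∈ Q, (1 : ℝ) := by
                apply sum_le_sum
                intro p hp
                rw [abs_mul]
                calc _ ≤ (1 : ℝ) * 1 :=
                      mul_le_mul (hε h p) (fp_abs _ _ _) (abs_nonneg _) zero_le_one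
                  _ = 1 := one_mul 1
            _ = #Q := by simp
        refine (sum_le_sum h4).trans ?_
        rw [sum_const, Nat.card_Ico, nsmul_eq_mul]
        have : 2 * N - N = N := by omega
        rw [this]
      have h5 : 0 ≤ kg Y h * (2 * N * Real.sqrt #Q) := by positivity
      have h6 : kg Y h * ∑ m ∈ Ico N (2 * N), |∑ p ∈ Q, ε h p * fp p h m| ≤ kg Y B * (N * #Q) :=
        mul_le_mul h2 h3 (by positivity) (kg_pos _ _).le
      linarith
  have h7 := sum_le_sum hbound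
  rw [sum_add_distrib, ← sum_mul] at h7
  have h8 : ∑ h ∈ Ioc 0 N, (N : ℝ) * #Q * kg Y B = N * (N * #Q * kg Y B) := by
    rw [sum_const, Nat.card_Ioc, nsmul_eq_mul, Nat.sub_zero]
  rw [h8] at h7
  have h9 := kg_sum hY N
  have h10 : (∑ h ∈ Ioc 0 N, kg Y h) * (2 * N * Real.sqrt #Q) ≤ (17 * Y) * (2 * N * Real.sqrt #Q) :=
    mul_le_mul_of_nonneg_right h9 (by positivity)
  nlinarith



/-- the correlation of two characters over the primes -/
noncomputable def GG (r : ℕ) (d e : OS) : ℝ := ∑ p ∈ PQ r, kr d p * kr e p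

theorem sum_mm (r : ℕ) : ∑ p ∈ PQ r, mm r p = ∑ d ∈ Dr r, ∑ e ∈ Sr r,
    ((vv r d * Wr d * Wr e * GG r d e : ℝ) : ℂ) *
    ((starRingEnd ℂ) (sg e) * (sg d * Kap ((r : ℝ) ^ 96) ((r : ℝ) ^ 98) (ll d e))) := by
  unfold mm
  rw [sum_comm]
  apply sum_congr rfl
  intro d _
  rw [sum_comm]
  apply sum_congr rfl
  intro e _
  rw [← sum_mul]
  congr 1
  unfold GG
  push_cast
  rw [mul_sum]
  apply sum_congr rfl
  intro p _
  ring

/-- the summand of the off-diagonal part -/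
noncomputable def off (r : ℕ) (d e : OS) : ℝ := by
  classical
  exact if d = e then 0 else
    |GG r d e| * Real.exp (-(((r : ℝ) ^ 96) ^ 2 * (ll d e) ^ 2 / 4))

theorem off_nonneg (r : ℕ) (d e : OS) : 0 ≤ off r d e := by
  classical
  unfold off
  split_ifs
  · exact le_rfl
  · positivity

theorem term_lower {r : ℕ} {d e : OS} (he : e ∈ Sr r) :
    (if d = e then GG r d d else 0) - off r d e ≤
    (((vv r d * Wr d * Wr e * GG r d e : ℝ) : ℂ) *
    ((starRingEnd ℂ) (sg e) * (sg d * Kap ((r : ℝ) ^ 96) ((r : ℝ) ^ 98) (ll d e)))).re := by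
  classical
  rw [re_ofReal_mul]
  unfold off
  by_cases hde : d = e
  · subst hde
    rw [if_pos rfl, if_pos rfl, sub_zero]
    have hl : ll d d = 0 := by unfold ll; rw [sub_self]
    have hv : vv r d = 1 := by unfold vv; rw [if_pos (mem_Sr.1 he).2]
    have hs : (starRingEnd ℂ) (sg d) * (sg d * 1) = 1 := by
      rw [mul_one, mul_comm, mul_conj, normSq_eq_norm_sq, sg_norm]
      norm_num
    rw [hl, Kap_zero, hs, one_re, mul_one, hv, one_mul, Wr_sq, one_mul]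
  · rw [if_neg hde, if_neg hde, zero_sub]
    have h1 : |((starRingEnd ℂ) (sg e) * (sg d * Kap ((r : ℝ) ^ 96) ((r : ℝ) ^ 98) (ll d e))).re| ≤
        Real.exp (-(((r : ℝ) ^ 96) ^ 2 * (ll d e) ^ 2 / 4)) := by
      refine (abs_re_le_norm _).trans ?_
      rw [norm_mul, norm_mul, RCLike.norm_conj, sg_norm, sg_norm, one_mul, one_mul, Kap_norm]
    have h2 : |vv r d * Wr d * Wr e * GG r d e| = |GG r d e| := by
      rw [abs_mul, abs_mul, abs_mul, Wr_abs, Wr_abs, vv_abs]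
      ring
    have h3 := neg_abs_le (vv r d * Wr d * Wr e * GG r d e *
      ((starRingEnd ℂ) (sg e) * (sg d * Kap ((r : ℝ) ^ 96) ((r : ℝ) ^ 98) (ll d e))).re)
    rw [abs_mul, h2] at h3
    have h4 : |GG r d e| * |((starRingEnd ℂ) (sg e) *
        (sg d * Kap ((r : ℝ) ^ 96) ((r : ℝ) ^ 98) (ll d e))).re| ≤
        |GG r d e| * Real.exp (-(((r : ℝ) ^ 96) ^ 2 * (ll d e) ^ 2 / 4)) := by
      gcongr
    linarith

/-- few of the primes divide a given `d` -/
theorem few_divisors {r : ℕ} (hr : 3 ≤ r) {d : OS} (hd : d ∈ Dr r) :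
    #((PQ r).filter (fun p => p ∣ d.1)) ≤ 10 := by
  set Q' := (PQ r).filter (fun p => p ∣ d.1) with hQ'
  have hdpos : 0 < d.1 := by have := d.2.2.2; omega
  have h1 : ∏ p ∈ Q', p ∣ d.1 := by
    apply Finset.prod_primes_dvd
    · intro p hp
      rw [hQ', mem_filter] at hp
      exact Nat.prime_iff.1 (mem_PQ hp.1 (by omega)).1
    · intro p hp
      rw [hQ', mem_filter] at hp
      exact hp.2
  have h2 : (r ^ 10) ^ #Q' ≤ ∏ p ∈ Q', p := by
    apply Finset.pow_card_le_prod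
    intro p hp
    rw [hQ', mem_filter] at hp
    have := (mem_PQ hp.1 (by omega)).2.2.1
    exact_mod_cast this
  have h3 : d.1 ≤ 2 * r ^ 100 := by
    have := (mem_Dr.1 hd).2
    omega
  have h4 := Nat.le_of_dvd hdpos h1
  have h5 : r ^ (10 * #Q') < r ^ 101 := by
    rw [pow_mul]
    calc (r ^ 10) ^ #Q' ≤ 2 * r ^ 100 := h2.trans (h4.trans h3)
      _ < r * r ^ 100 := by
        apply Nat.mul_lt_mul_of_pos_right (by omega)
        positivity
      _ = r ^ 101 := by ring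
  have h6 := (Nat.pow_lt_pow_iff_right (by omega)).1 h5
  omega

theorem GG_diag {r : ℕ} (hr : 3 ≤ r) {d : OS} (hd : d ∈ Dr r) :
    (#(PQ r) : ℝ) - 10 ≤ GG r d d := by
  classical
  unfold GG
  have h1 : ∀ p ∈ PQ r, (1 : ℝ) - (if p ∣ d.1 then 1 else 0) ≤ kr d p * kr d p := by
    intro p hp
    obtain ⟨p1, p2, -, -, p5⟩ := mem_PQ hp (by omega)
    by_cases h : p ∣ d.1
    · rw [if_pos h, sub_self]
      exact mul_self_nonneg _
    · rw [if_neg h, sub_zero]
      have h2 : jacobiSym ((p : ℤ) ^ 2) d.1 = 1 := by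
        apply jacobiSym.sq_one'
        have : Nat.Coprime p d.1 := (Nat.Prime.coprime_iff_not_dvd p1).2 h
        rw [Int.gcd_natCast_natCast]
        exact this
      rw [sq, jacobiSym.mul_left] at h2
      unfold kr
      have : ((jacobiSym (p : ℤ) d.1 : ℤ) : ℝ) * ((jacobiSym (p : ℤ) d.1 : ℤ) : ℝ) = 1 := by
        exact_mod_cast h2
      rw [this]
  have h2 := sum_le_sum h1
  refine le_trans ?_ h2
  rw [sum_sub_distrib, sum_const, nsmul_eq_mul, mul_one, ← sum_filter, sum_const, nsmul_eq_mul,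
    mul_one]
  have h3 : ((#((PQ r).filter (fun p => p ∣ d.1)) : ℕ) : ℝ) ≤ 10 := by
    exact_mod_cast few_divisors hr hd
  linarith

/-- the correlations in terms of Jacobi symbols -/
theorem GG_eq {r : ℕ} (hr : 2 ≤ r) (d e : OS) : GG r d e = ∑ p ∈ PQ r,
    eps (d.1 - e.1 + (e.1 - d.1)) p * ((jacobiSym ((d.1 : ℤ) * e.1) p : ℤ) : ℝ) := by
  unfold GG
  apply sum_congr rfl
  intro p hp
  obtain ⟨-, -, -, -, p5⟩ := mem_PQ hp hr
  exact kr_mul d e p5

/-- the comparison sum over pairs of integers -/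
noncomputable def HP (r : ℕ) (n : ℕ) : ℝ :=
  ∑ m ∈ Ico (r ^ 100) (2 * r ^ 100), (if n = m then 0 else
    kg ((r ^ 4 : ℕ) : ℝ) ((n : ℝ) - m) * |∑ p ∈ PQ r, eps (n - m + (m - n)) p *
      ((jacobiSym ((n : ℤ) * m) p : ℤ) : ℝ)|)

theorem HP_nonneg (r : ℕ) (n : ℕ) : 0 ≤ HP r n := by
  unfold HP
  apply sum_nonneg
  intro m _
  split_ifs
  · exact le_rfl
  · have := kg_pos ((r ^ 4 : ℕ) : ℝ) ((n : ℝ) - m)
    positivity

theorem off_sum_le {r : ℕ} (hr : 2 ≤ r) {d : OS} (hd : d ∈ Dr r) :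
    ∑ e ∈ Sr r, off r d e ≤ HP r d.1 := by
  classical
  have h := sum_inj (Sr r) (Ico (r ^ 100) (2 * r ^ 100)) (fun m => if d.1 = m then 0 else
    kg ((r ^ 4 : ℕ) : ℝ) (((d.1 : ℕ) : ℝ) - m) * |∑ p ∈ PQ r, eps (d.1 - m + (m - d.1)) p *
      ((jacobiSym (((d.1 : ℕ) : ℤ) * m) p : ℤ) : ℝ)|) (fun m => by
      have := kg_pos ((r ^ 4 : ℕ) : ℝ) (((d.1 : ℕ) : ℝ) - m)
      split_ifs <;> positivity)
    (fun d hd => (Dr_window (Sr_sub hd)).1)
  refine le_trans ?_ h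
  apply sum_le_sum
  intro e he
  obtain ⟨-, e2, -, e4⟩ := Dr_window (Sr_sub he)
  obtain ⟨-, d2, -, d4⟩ := Dr_window hd
  unfold off
  by_cases hde : d = e
  · subst hde
    rw [if_pos rfl, if_pos rfl]
  · rw [if_neg hde, if_neg (fun h => hde (Subtype.ext h))]
    have hX : (0 : ℝ) < (r : ℝ) ^ 100 := by
      have : (0 : ℝ) < r := by exact_mod_cast (by omega : 0 < r)
      positivity
    have h1 := kap_le_kg (r := r) (by omega) (n := (d.1 : ℝ)) (m := (e.1 : ℝ)) (by linarith)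
      (by linarith) d4 e4
    rw [GG_eq hr d e, mul_comm]
    unfold ll
    exact mul_le_mul_of_nonneg_right h1 (abs_nonneg _)

theorem HP_sum {r : ℕ} (hr : 2 ≤ r) :
    ∑ n ∈ Ico (r ^ 100) (2 * r ^ 100), HP r n ≤
      68 * (r : ℝ) ^ 4 * (r : ℝ) ^ 100 * Real.sqrt #(PQ r) +
        2 * ((r : ℝ) ^ 100) ^ 2 * #(PQ r) * kg ((r : ℝ) ^ 4) ((r : ℝ) ^ 10) := by
  have hr1 : (1 : ℝ) ≤ r := by exact_mod_cast (by omega : 1 ≤ r)
  have hr0 : (0 : ℝ) < r := by linarith
  have hY : 1 ≤ r ^ 4 := Nat.one_le_pow _ _ (by omega)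
  have h := pair_char2 (Y := r ^ 4) (N := r ^ 100) hY (Q := PQ r) (B := (r : ℝ) ^ 10)
    (C := (r : ℝ) ^ 20) (by positivity) (fun p hp => by
      obtain ⟨a, b, c, d, -⟩ := mem_PQ hp hr
      exact ⟨a, b, c, d⟩) eps eps_abs (by
      have h1 := PQ_card_le r
      have h2 : ((r ^ 100 : ℕ) : ℝ) / ((r : ℝ) ^ 10) ^ 2 = (r : ℝ) ^ 80 := by
        push_cast
        field_simp
      rw [h2]
      have h3 : ((r : ℝ) ^ 20) ^ 2 ≤ (r : ℝ) ^ 80 := by
        rw [← pow_mul]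
        exact pow_le_pow_right₀ hr1 (by norm_num)
      calc (#(PQ r) : ℝ) * ((r : ℝ) ^ 80 + ((r : ℝ) ^ 20) ^ 2) ≤
          (r : ℝ) ^ 20 * ((r : ℝ) ^ 80 + (r : ℝ) ^ 80) := by gcongr
        _ = 2 * (r : ℝ) ^ 100 := by ring
        _ ≤ 3 * ((r ^ 100 : ℕ) : ℝ) := by
          push_cast
          have : 0 < (r : ℝ) ^ 100 := by positivity
          linarith)
  unfold HP
  push_cast at h ⊢
  exact h

theorem lower_main {r : ℕ} (hr : 1000 ≤ r) (hP : 10 ≤ (#(PQ r) : ℝ)) :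
    (r : ℝ) ^ 100 / 100 * ((#(PQ r) : ℝ) - 10) -
      (68 * (r : ℝ) ^ 4 * (r : ℝ) ^ 100 * Real.sqrt #(PQ r) +
        2 * ((r : ℝ) ^ 100) ^ 2 * #(PQ r) * kg ((r : ℝ) ^ 4) ((r : ℝ) ^ 10)) ≤
    ‖∑ p ∈ PQ r, mm r p‖ := by
  classical
  refine le_trans ?_ (re_le_norm _)
  rw [sum_mm, re_sum]
  simp_rw [re_sum]
  have hlow : ∑ d ∈ Dr r, ∑ e ∈ Sr r, ((if d = e then GG r d d else 0) - off r d e) ≤
      ∑ d ∈ Dr r, ∑ e ∈ Sr r, (((vv r d * Wr d * Wr e * GG r d e : ℝ) : ℂ) *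
      ((starRingEnd ℂ) (sg e) * (sg d * Kap ((r : ℝ) ^ 96) ((r : ℝ) ^ 98) (ll d e)))).re := by
    apply sum_le_sum
    intro d _
    apply sum_le_sum
    intro e he
    exact term_lower he
  refine le_trans ?_ hlow
  simp_rw [sum_sub_distrib]
  have hdiag : (r : ℝ) ^ 100 / 100 * ((#(PQ r) : ℝ) - 10) ≤
      ∑ d ∈ Dr r, ∑ e ∈ Sr r, (if d = e then GG r d d else 0) := by
    rw [sum_comm]
    have h1 : ∀ e ∈ Sr r, ((#(PQ r) : ℝ) - 10) ≤
        ∑ d ∈ Dr r, (if d = e then GG r d d else 0) := by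
      intro e he
      rw [sum_ite_eq', if_pos (Sr_sub he)]
      exact GG_diag (by omega) (Sr_sub he)
    refine le_trans ?_ (sum_le_sum h1)
    rw [sum_const, nsmul_eq_mul]
    exact mul_le_mul_of_nonneg_right (Sr_card_lower hr) (by linarith)
  have hoff : ∑ d ∈ Dr r, ∑ e ∈ Sr r, off r d e ≤ 68 * (r : ℝ) ^ 4 * (r : ℝ) ^ 100 *
      Real.sqrt #(PQ r) + 2 * ((r : ℝ) ^ 100) ^ 2 * #(PQ r) * kg ((r : ℝ) ^ 4) ((r : ℝ) ^ 10) := by
    have h1 : ∑ d ∈ Dr r, ∑ e ∈ Sr r, off r d e ≤ ∑ d ∈ Dr r, HP r d.1 :=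
      sum_le_sum fun d hd => off_sum_le (by omega) hd
    have h2 := sum_inj (Dr r) (Ico (r ^ 100) (2 * r ^ 100)) (HP r) (HP_nonneg r)
      (fun d hd => (Dr_window hd).1)
    exact h1.trans (h2.trans (HP_sum (by omega)))
  linarith

end Pool.Agent.H491R3.J
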