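import Pool.Agent.H491R3.J.EBound
import Pool.Agent.H491R3.J.GamExt
import Pool.Agent.H491R3.J.Lower
import Pool.Agent.H491R3.SBound

set_option autoImplicit false

namespace Pool.Agent.H491R3.J

open Finset Complex MeasureTheory

/-- the Dirichlet polynomial over the window -/
noncomputable def psi (r p : ℕ) (β : ℂ) : ℂ := ∑ e ∈ Sr r,
  (((Wr e * kr e p : ℝ) : ℂ) * (starRingEnd ℂ) (sg e)) * exp (-(β * (Real.log (e.1 : ℝ) : ℝ)))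

theorem psi_double {r : ℕ} (hr : 1 ≤ r) :
    ∑ a ∈ Sr r, ∑ b ∈ Sr r, Real.exp (-(((r : ℝ) ^ 96) ^ 2 *
      (Real.log (b.1 : ℝ) - Real.log (a.1 : ℝ)) ^ 2 / 4)) ≤ 35 * (r : ℝ) ^ 104 := by
  have hr0 : (0 : ℝ) < r := by exact_mod_cast hr
  set J := Ico (r ^ 100) (2 * r ^ 100) with hJ
  have h1 : ∀ a ∈ Sr r, ∑ b ∈ Sr r, Real.exp (-(((r : ℝ) ^ 96) ^ 2 *
      (Real.log (b.1 : ℝ) - Real.log (a.1 : ℝ)) ^ 2 / 4)) ≤
      ∑ m ∈ J, kg ((r ^ 4 : ℕ) : ℝ) ((m : ℝ) - ((a.1 : ℕ) : ℝ)) := by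
    intro a ha
    have h := sum_inj (Sr r) J (fun m => kg ((r ^ 4 : ℕ) : ℝ) ((m : ℝ) - ((a.1 : ℕ) : ℝ)))
      (fun m => (kg_pos _ _).le) (fun d hd => (Dr_window (Sr_sub hd)).1)
    refine le_trans (sum_le_sum fun b hb => ?_) h
    obtain ⟨-, a3, -, a4⟩ := Dr_window (Sr_sub ha)
    obtain ⟨-, b3, -, b4⟩ := Dr_window (Sr_sub hb)
    have hX : (0 : ℝ) < (r : ℝ) ^ 100 := by positivity
    exact kap_le_kg hr (n := (b.1 : ℝ)) (m := (a.1 : ℝ)) (by linarith) (by linarith) b4 a4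
  have h2 := sum_le_sum h1
  have h3 := sum_inj (Sr r) J (fun n => ∑ m ∈ J, kg ((r ^ 4 : ℕ) : ℝ) ((m : ℝ) - (n : ℝ)))
      (fun n => sum_nonneg fun m _ => (kg_pos _ _).le) (fun d hd => (Dr_window (Sr_sub hd)).1)
  have h4 := pair_gauss (Y := r ^ 4) (N := r ^ 100) (Nat.one_le_pow _ _ hr)
  refine h2.trans (h3.trans ?_)
  rw [sum_comm]
  refine h4.trans (le_of_eq ?_)
  push_cast
  ring

theorem psi_l1 {r : ℕ} (hr : 1 ≤ r) (p : ℕ) :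
    Integrable (fun t : ℝ => Real.exp (-((t - (r : ℝ) ^ 98) ^ 2 / ((r : ℝ) ^ 96) ^ 2)) *
      ‖psi r p ((1 / 5 : ℝ) + t * I)‖) ∧
    ∫ t : ℝ, Real.exp (-((t - (r : ℝ) ^ 98) ^ 2 / ((r : ℝ) ^ 96) ^ 2)) *
      ‖psi r p ((1 / 5 : ℝ) + t * I)‖ ≤ Real.sqrt Real.pi * (r : ℝ) ^ 96 * (6 * (r : ℝ) ^ 32) := by
  have hr0 : (0 : ℝ) < r := by exact_mod_cast hr
  set c : OS → ℂ := fun e => (((Wr e * kr e p : ℝ) : ℂ) * (starRingEnd ℂ) (sg e)) *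
    ((Real.exp (-((1 / 5) * Real.log (e.1 : ℝ))) : ℝ) : ℂ) with hc
  set l : OS → ℝ := fun e => Real.log (e.1 : ℝ) with hl
  have hpsi : ∀ t : ℝ, psi r p ((1 / 5 : ℝ) + t * I) = ∑ a ∈ Sr r, c a * exp (-(t * l a * I)) := by
    intro t
    unfold psi
    apply sum_congr rfl
    intro e _
    simp only [hc, hl]
    rw [mul_assoc (((Wr e * kr e p : ℝ) : ℂ) * (starRingEnd ℂ) (sg e))]
    congr 1
    rw [ofReal_exp, ← exp_add]
    congr 1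
    push_cast
    ring
  have hcn : ∀ a ∈ Sr r, ‖c a‖ ≤ ((r : ℝ) ^ 20)⁻¹ := by
    intro a ha
    obtain ⟨-, a3, -, -⟩ := Dr_window (Sr_sub ha)
    have hX : (0 : ℝ) < (r : ℝ) ^ 100 := by positivity
    simp only [hc]
    rw [norm_mul, norm_mul, RCLike.norm_conj, sg_norm, mul_one, norm_real, norm_real,
      Real.norm_eq_abs, Real.norm_eq_abs, abs_mul, Wr_abs, one_mul, abs_of_pos (Real.exp_pos _)]
    have h1 : Real.exp (-((1 / 5) * Real.log (a.1 : ℝ))) ≤ ((r : ℝ) ^ 20)⁻¹ := by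
      have h2 : Real.log ((r : ℝ) ^ 100) ≤ Real.log (a.1 : ℝ) := Real.log_le_log hX a3.le
      rw [Real.log_pow] at h2
      push_cast at h2
      have h3 : ((r : ℝ) ^ 20)⁻¹ = Real.exp (-(20 * Real.log r)) := by
        rw [Real.exp_neg, mul_comm, Real.exp_mul, Real.exp_log hr0]
        congr 1
        exact_mod_cast (Real.rpow_natCast (r : ℝ) 20).symm
      rw [h3]
      apply Real.exp_le_exp.2
      linarith
    calc |kr a p| * Real.exp (-((1 / 5) * Real.log (a.1 : ℝ))) ≤ 1 * ((r : ℝ) ^ 20)⁻¹ :=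
          mul_le_mul (kr_abs a p) h1 (Real.exp_pos _).le zero_le_one
      _ = _ := one_mul _
  have hb : ∑ a ∈ Sr r, ∑ b ∈ Sr r, ‖c a‖ * ‖c b‖ *
      Real.exp (-(((r : ℝ) ^ 96) ^ 2 * (l b - l a) ^ 2 / 4)) ≤ (6 * (r : ℝ) ^ 32) ^ 2 := by
    calc _ ≤ ∑ a ∈ Sr r, ∑ b ∈ Sr r, ((r : ℝ) ^ 40)⁻¹ *
          Real.exp (-(((r : ℝ) ^ 96) ^ 2 * (l b - l a) ^ 2 / 4)) := by
          apply sum_le_sum
          intro a ha
          apply sum_le_sum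
          intro b hb
          apply mul_le_mul_of_nonneg_right _ (Real.exp_pos _).le
          calc ‖c a‖ * ‖c b‖ ≤ ((r : ℝ) ^ 20)⁻¹ * ((r : ℝ) ^ 20)⁻¹ :=
                mul_le_mul (hcn a ha) (hcn b hb) (norm_nonneg _) (by positivity)
            _ = ((r : ℝ) ^ 40)⁻¹ := by rw [← mul_inv]; congr 1; ring
      _ = ((r : ℝ) ^ 40)⁻¹ * ∑ a ∈ Sr r, ∑ b ∈ Sr r,
          Real.exp (-(((r : ℝ) ^ 96) ^ 2 * (l b - l a) ^ 2 / 4)) := by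
          simp_rw [mul_sum]
      _ ≤ ((r : ℝ) ^ 40)⁻¹ * (35 * (r : ℝ) ^ 104) :=
          mul_le_mul_of_nonneg_left (psi_double hr) (by positivity)
      _ ≤ (6 * (r : ℝ) ^ 32) ^ 2 := by
          have : ((r : ℝ) ^ 40)⁻¹ * (35 * (r : ℝ) ^ 104) = 35 * (r : ℝ) ^ 64 := by
            field_simp
          rw [this]
          have h0 : 0 < (r : ℝ) ^ 64 := by positivity
          nlinarith
  have h := l1_bound (Sr r) c l (U := (r : ℝ) ^ 96) (by positivity) ((r : ℝ) ^ 98)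
    (lam := 6 * (r : ℝ) ^ 32) (by positivity) hb
  simp_rw [hpsi]
  exact h

theorem I_bound {r p : ℕ} (hr : 2 ≤ r) {γ : ℂ} {M : ℝ} (hM : 0 ≤ M)
    (hE : ∀ t : ℝ, (r : ℝ) ^ 98 / 2 ≤ t → t ≤ 2 * (r : ℝ) ^ 98 →
      ‖E1 r ((1 / 5 : ℝ) + t * I) γ‖ ≤ M) :
    ‖∫ t in ((r : ℝ) ^ 98 - (r : ℝ) ^ 97)..((r : ℝ) ^ 98 + (r : ℝ) ^ 97),
      KK ((r : ℝ) ^ 96) ((r : ℝ) ^ 98) ((1 / 5 : ℝ) + t * I) * psi r p ((1 / 5 : ℝ) + t * I) *
        E1 r ((1 / 5 : ℝ) + t * I) γ‖ ≤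
      M * (Real.sqrt Real.pi * (r : ℝ) ^ 96 * (12 * (r : ℝ) ^ 32)) := by
  have hr2 : (2 : ℝ) ≤ r := by exact_mod_cast hr
  have hr1 : (1 : ℝ) ≤ r := by linarith
  have hr0 : (0 : ℝ) < r := by linarith
  have hrn : 1 ≤ r := by omega
  have h970 : 0 < (r : ℝ) ^ 97 := by positivity
  have h97 : 2 * (r : ℝ) ^ 97 ≤ (r : ℝ) ^ 98 := by
    calc 2 * (r : ℝ) ^ 97 ≤ r * (r : ℝ) ^ 97 := by gcongr
      _ = (r : ℝ) ^ 98 := by ring
  obtain ⟨g1, g2⟩ := psi_l1 hrn p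
  set g : ℝ → ℝ := fun t => Real.exp (-((t - (r : ℝ) ^ 98) ^ 2 / ((r : ℝ) ^ 96) ^ 2)) *
      ‖psi r p ((1 / 5 : ℝ) + t * I)‖ with hg
  have hle : ((r : ℝ) ^ 98 - (r : ℝ) ^ 97) ≤ ((r : ℝ) ^ 98 + (r : ℝ) ^ 97) := by linarith
  have h1 : ‖∫ t in ((r : ℝ) ^ 98 - (r : ℝ) ^ 97)..((r : ℝ) ^ 98 + (r : ℝ) ^ 97),
      KK ((r : ℝ) ^ 96) ((r : ℝ) ^ 98) ((1 / 5 : ℝ) + t * I) * psi r p ((1 / 5 : ℝ) + t * I) *
        E1 r ((1 / 5 : ℝ) + t * I) γ‖ ≤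
      ∫ t in ((r : ℝ) ^ 98 - (r : ℝ) ^ 97)..((r : ℝ) ^ 98 + (r : ℝ) ^ 97), 2 * M * g t := by
    apply intervalIntegral.norm_integral_le_of_norm_le hle
    · refine Filter.Eventually.of_forall fun t ht => ?_
      rw [norm_mul, norm_mul]
      have e1 := KK_le hrn (k := 96) (a := 1 / 5) (T := (r : ℝ) ^ 98) (t := t) (by
        rw [abs_of_pos (by norm_num)]; norm_num)
      have e2 := hE t (by linarith [ht.1]) (by linarith [ht.2])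
      calc _ ≤ (2 * Real.exp (-((t - (r : ℝ) ^ 98) ^ 2 / ((r : ℝ) ^ 96) ^ 2))) *
            ‖psi r p ((1 / 5 : ℝ) + t * I)‖ * M := by gcongr
        _ = _ := by simp only [hg]; ring
    · exact (g1.const_mul (2 * M)).intervalIntegrable
  refine h1.trans ?_
  rw [intervalIntegral.integral_const_mul, intervalIntegral.integral_of_le hle]
  have h2 : ∫ t in Set.Ioc ((r : ℝ) ^ 98 - (r : ℝ) ^ 97) ((r : ℝ) ^ 98 + (r : ℝ) ^ 97), g t ≤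
      ∫ t, g t := setIntegral_le_integral g1 (Filter.Eventually.of_forall fun t => by
        simp only [hg]; positivity)
  have h3 := h2.trans g2
  calc 2 * M * _ ≤ 2 * M * (Real.sqrt Real.pi * (r : ℝ) ^ 96 * (6 * (r : ℝ) ^ 32)) :=
        mul_le_mul_of_nonneg_left h3 (by positivity)
    _ = _ := by ring

/-- the coefficients of the double sums -/
noncomputable def aco (r p : ℕ) (d e : OS) : ℂ :=
  ((vv r d * (Wr e * kr e p) : ℝ) : ℂ) * (starRingEnd ℂ) (sg e)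

/-- the extracted sum -/
noncomputable def SS (r p : ℕ) (γ : ℂ) : ℂ := ∑ d ∈ Dr r, ∑ e ∈ Sr r,
  aco r p d e * (sg d * (((Real.sqrt Real.pi * (r : ℝ) ^ 96 : ℝ) : ℂ) *
    Kap ((r : ℝ) ^ 96) ((r : ℝ) ^ 98) (ll d e))) * (W d * (L d (1 / 2 + γ))⁻¹)

theorem aco_norm (r p : ℕ) (d e : OS) : ‖aco r p d e‖ ≤ 1 := by
  unfold aco
  rw [norm_mul, RCLike.norm_conj, sg_norm, mul_one, norm_real, Real.norm_eq_abs, abs_mul, abs_mul,
    Wr_abs, one_mul, vv_abs, one_mul]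
  exact kr_abs e p

theorem pairs_le {r : ℕ} {c : ℝ} (hc : 0 ≤ c) (f : OS → OS → ℝ)
    (hf : ∀ d ∈ Dr r, ∀ e ∈ Sr r, f d e ≤ c) :
    ∑ d ∈ Dr r, ∑ e ∈ Sr r, f d e ≤ (r : ℝ) ^ 200 * c := by
  calc ∑ d ∈ Dr r, ∑ e ∈ Sr r, f d e ≤ ∑ d ∈ Dr r, ∑ e ∈ Sr r, c :=
        sum_le_sum fun d hd => sum_le_sum fun e he => hf d hd e he
    _ = #(Dr r) * (#(Sr r) * c) := by
        rw [sum_const, sum_const, nsmul_eq_mul, nsmul_eq_mul]
    _ ≤ ((r : ℝ) ^ 100) * ((r : ℝ) ^ 100 * c) := by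
        have h1 := Dr_card r
        have h2 := Sr_card r
        gcongr
    _ = _ := by ring

theorem expand_pt (r p : ℕ) (K β γ : ℂ) : K * psi r p β * E1 r β γ =
    ∑ d ∈ Dr r, ∑ e ∈ Sr r, (aco r p d e * (W d * (L d (1 / 2 + γ))⁻¹) *
      (K * ee d (1 / 2 + β) * exp (β * (ll d e : ℝ)) * L d (1 / 2 + β))) := by
  unfold psi E1
  rw [mul_sum, mul_sum]
  apply sum_congr rfl
  intro d _
  rw [sum_mul]
  apply sum_congr rfl
  intro e _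
  have h : exp (β * (ll d e : ℝ)) = exp (β * (Real.log (d.1 : ℝ) : ℝ)) *
      exp (-(β * (Real.log (e.1 : ℝ) : ℝ))) := by
    rw [← exp_add]
    congr 1
    unfold ll
    push_cast
    ring
  rw [h]
  unfold aco
  push_cast
  ring

/-- the extracted sum is small -/
theorem S_bound {r p : ℕ} (hr : 2 ≤ r) {γ : ℂ} {M τ R : ℝ} (hM : 0 ≤ M)
    (hτ : 0 ≤ τ) (hR : 0 ≤ R)
    (hE : ∀ t : ℝ, (r : ℝ) ^ 98 / 2 ≤ t → t ≤ 2 * (r : ℝ) ^ 98 →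
      ‖E1 r ((1 / 5 : ℝ) + t * I) γ‖ ≤ M)
    (hLi : ∀ d ∈ Dr r, ‖(L d (1 / 2 + γ))⁻¹‖ ≤ R)
    (hB1 : ∀ d ∈ Dr r, ∀ e ∈ Sr r,
      ‖(∫ t in ((r : ℝ) ^ 98 - (r : ℝ) ^ 97)..((r : ℝ) ^ 98 + (r : ℝ) ^ 97),
        KK ((r : ℝ) ^ 96) ((r : ℝ) ^ 98) ((1 / 5 : ℝ) + t * I) *
        ee d (1 / 2 + ((1 / 5 : ℝ) + t * I)) * exp (((1 / 5 : ℝ) + t * I) * (ll d e : ℝ)) *
        L d (1 / 2 + ((1 / 5 : ℝ) + t * I))) -
      sg d * (((Real.sqrt Real.pi * (r : ℝ) ^ 96 : ℝ) : ℂ) *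
        Kap ((r : ℝ) ^ 96) ((r : ℝ) ^ 98) (ll d e))‖ ≤ τ) :
    ‖SS r p γ‖ ≤ M * (Real.sqrt Real.pi * (r : ℝ) ^ 96 * (12 * (r : ℝ) ^ 32)) +
      (r : ℝ) ^ 200 * (R * τ) := by
  set A := ((r : ℝ) ^ 98 - (r : ℝ) ^ 97) with hA
  set B := ((r : ℝ) ^ 98 + (r : ℝ) ^ 97) with hBB
  set f1 : OS → OS → ℝ → ℂ := fun d e t =>
    KK ((r : ℝ) ^ 96) ((r : ℝ) ^ 98) ((1 / 5 : ℝ) + t * I) *
        ee d (1 / 2 + ((1 / 5 : ℝ) + t * I)) * exp (((1 / 5 : ℝ) + t * I) * (ll d e : ℝ)) *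
        L d (1 / 2 + ((1 / 5 : ℝ) + t * I)) with hf1
  have hpath : Continuous (fun t : ℝ => (((1 / 5 : ℝ) : ℂ) + t * I)) := by fun_prop
  have hcK : ∀ U T : ℝ, Continuous (fun t : ℝ => KK U T ((1 / 5 : ℝ) + t * I)) := fun U T =>
    (KK_diff U T).continuous.comp hpath
  have hcE : ∀ d, Continuous (fun t : ℝ => ee d (1 / 2 + ((1 / 5 : ℝ) + t * I))) := fun d =>
    (ee_diff d).continuous.comp hpath
  have hc1 : ∀ d e, Continuous (f1 d e) := by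
    intro d e
    simp only [hf1]
    have : Continuous (fun t : ℝ => L d (1 / 2 + ((1 / 5 : ℝ) + t * I))) :=
      (L_diff d).continuous.comp (by fun_prop)
    exact (((hcK _ _).mul (hcE d)).mul (by fun_prop)).mul this
  have hexp : (∫ t in A..B, KK ((r : ℝ) ^ 96) ((r : ℝ) ^ 98) ((1 / 5 : ℝ) + t * I) *
      psi r p ((1 / 5 : ℝ) + t * I) * E1 r ((1 / 5 : ℝ) + t * I) γ) =
      ∑ d ∈ Dr r, ∑ e ∈ Sr r, (aco r p d e * (W d * (L d (1 / 2 + γ))⁻¹) *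
        (∫ t in A..B, f1 d e t)) := by
    have hpt : ∀ t : ℝ, KK ((r : ℝ) ^ 96) ((r : ℝ) ^ 98) ((1 / 5 : ℝ) + t * I) *
      psi r p ((1 / 5 : ℝ) + t * I) * E1 r ((1 / 5 : ℝ) + t * I) γ =
      ∑ d ∈ Dr r, ∑ e ∈ Sr r, (aco r p d e * (W d * (L d (1 / 2 + γ))⁻¹) * f1 d e t) :=
        fun t => expand_pt r p _ _ _
    simp_rw [hpt]
    rw [intervalIntegral.integral_finsetSum]
    · apply sum_congr rfl
      intro d _
      rw [intervalIntegral.integral_finsetSum]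
      · apply sum_congr rfl
        intro e _
        rw [intervalIntegral.integral_const_mul]
      · intro e _
        exact (continuous_const.mul (hc1 d e)).intervalIntegrable _ _
    · intro d _
      exact (continuous_finsetSum _ fun e _ =>
        (continuous_const.mul (hc1 d e))).intervalIntegrable _ _
  have hI := I_bound (p := p) hr hM hE
  rw [hexp] at hI
  set Q := ∑ d ∈ Dr r, ∑ e ∈ Sr r, (aco r p d e * (W d * (L d (1 / 2 + γ))⁻¹) *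
    (∫ t in A..B, f1 d e t)) with hQ
  have hdiff : ‖SS r p γ - Q‖ ≤ (r : ℝ) ^ 200 * (R * τ) := by
    unfold SS
    rw [hQ, ← sum_sub_distrib]
    simp_rw [← sum_sub_distrib]
    refine (norm_sum_le _ _).trans ?_
    refine (sum_le_sum fun d _ => norm_sum_le _ _).trans ?_
    apply pairs_le (by positivity)
    intro d hd e he
    have h1 := hB1 d hd e he
    have h3 := hLi d hd
    have h4 := aco_norm r p d e
    have h5 : ‖W d‖ = 1 := by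
      rw [W_real, norm_real, Real.norm_eq_abs, Wr_abs]
    set m := sg d * (((Real.sqrt Real.pi * (r : ℝ) ^ 96 : ℝ) : ℂ) *
        Kap ((r : ℝ) ^ 96) ((r : ℝ) ^ 98) (ll d e)) with hm
    have e1 : aco r p d e * m * (W d * (L d (1 / 2 + γ))⁻¹) -
        (aco r p d e * (W d * (L d (1 / 2 + γ))⁻¹) * (∫ t in A..B, f1 d e t)) =
        -(aco r p d e * ((W d * (L d (1 / 2 + γ))⁻¹) * ((∫ t in A..B, f1 d e t) - m))) := by ring
    rw [e1, norm_neg, norm_mul]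
    have h6 : ‖(W d * (L d (1 / 2 + γ))⁻¹) * ((∫ t in A..B, f1 d e t) - m)‖ ≤ R * τ := by
      rw [norm_mul, norm_mul, h5, one_mul]
      exact mul_le_mul h3 h1 (norm_nonneg _) hR
    calc ‖aco r p d e‖ * _ ≤ 1 * (R * τ) := mul_le_mul h4 h6 (norm_nonneg _) zero_le_one
      _ = R * τ := one_mul _
  have e2 : SS r p γ = (SS r p γ - Q) + Q := by ring
  rw [e2]
  refine (norm_add_le _ _).trans ?_
  linarith

end Pool.Agent.H491R3.J
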