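import Pool.Agent.H491R3.Lower
import Pool.Agent.H491R3.J.BetaExt

set_option autoImplicit false

namespace Pool.Agent.H491R3.J

open Finset Complex

/-- the root number as a real number -/
noncomputable def Wr (d : OS) : ℝ := by
  classical
  exact if W d = 1 then 1 else -1

theorem W_real (d : OS) : W d = (Wr d : ℂ) := by
  classical
  unfold Wr
  rcases W_eq d with h | h
  · rw [if_pos h, h]; simp
  · rw [if_neg (by rw [h]; norm_num), h]; simp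

theorem Wr_sq (d : OS) : Wr d * Wr d = 1 := by
  classical
  unfold Wr
  split_ifs <;> norm_num

theorem Wr_abs (d : OS) : |Wr d| = 1 := by
  classical
  unfold Wr
  split_ifs <;> norm_num

/-- the values of the character as real numbers -/
def kr (d : OS) (p : ℕ) : ℝ := ((jacobiSym (p : ℤ) d.1 : ℤ) : ℝ)

theorem chi_kr (d : OS) (p : ℕ) : chi d (p : ZMod d.1) = (kr d p : ℂ) := by
  rw [chi_natCast]
  unfold kr
  push_cast
  rfl

theorem kr_abs (d : OS) (p : ℕ) : |kr d p| ≤ 1 := jac_abs _ _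

/-- the sign of the reciprocity law, in terms of the distance -/
def eps (h p : ℕ) : ℝ := (-1) ^ (p / 2 * (h / 2))

theorem eps_abs (h p : ℕ) : |eps h p| ≤ 1 := by
  unfold eps
  rw [abs_pow, abs_neg, abs_one, one_pow]

theorem kr_mul (d e : OS) {p : ℕ} (hp : Odd p) : kr d p * kr e p =
    eps (d.1 - e.1 + (e.1 - d.1)) p * ((jacobiSym ((d.1 : ℤ) * e.1) p : ℤ) : ℝ) := by
  unfold kr eps
  rw [jacobiSym.quadratic_reciprocity hp d.2.1, jacobiSym.quadratic_reciprocity hp e.2.1,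
    jacobiSym.mul_left]
  push_cast
  have key : ((-1 : ℝ)) ^ (p / 2 * (d.1 / 2)) * (-1) ^ (p / 2 * (e.1 / 2)) =
      (-1) ^ (p / 2 * ((d.1 - e.1 + (e.1 - d.1)) / 2)) := by
    have hd := Nat.odd_iff.1 d.2.1
    have he := Nat.odd_iff.1 e.2.1
    rw [← pow_add, ← mul_add]
    rcases le_total e.1 d.1 with h | h
    · have h1 : d.1 / 2 + e.1 / 2 = (d.1 - e.1 + (e.1 - d.1)) / 2 + 2 * (e.1 / 2) := by omega
      rw [h1, mul_add, pow_add]
      have : (-1 : ℝ) ^ (p / 2 * (2 * (e.1 / 2))) = 1 := by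
        rw [show p / 2 * (2 * (e.1 / 2)) = 2 * (p / 2 * (e.1 / 2)) by ring, pow_mul]
        norm_num
      rw [this, mul_one]
    · have h1 : d.1 / 2 + e.1 / 2 = (d.1 - e.1 + (e.1 - d.1)) / 2 + 2 * (d.1 / 2) := by omega
      rw [h1, mul_add, pow_add]
      have : (-1 : ℝ) ^ (p / 2 * (2 * (d.1 / 2))) = 1 := by
        rw [show p / 2 * (2 * (d.1 / 2)) = 2 * (p / 2 * (d.1 / 2)) by ring, pow_mul]
        norm_num
      rw [this, mul_one]
  rw [← key]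
  ring

/-- the whole family between `X` and `3 X / 2` -/
noncomputable def Dr (r : ℕ) : Finset OS := by
  classical
  exact (Finset.Ioc (r ^ 100) (3 * r ^ 100 / 2)).subtype (fun n => Odd n ∧ Squarefree n ∧ 1 < n)

theorem mem_Dr {r : ℕ} {d : OS} : d ∈ Dr r ↔ r ^ 100 < d.1 ∧ d.1 ≤ 3 * r ^ 100 / 2 := by
  classical
  unfold Dr
  rw [Finset.mem_subtype, Finset.mem_Ioc]

/-- the window of length `X / 4` -/
noncomputable def Sr (r : ℕ) : Finset OS := by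
  classical
  exact (Dr r).filter (fun d => d.1 ≤ 5 * r ^ 100 / 4)

theorem mem_Sr {r : ℕ} {d : OS} : d ∈ Sr r ↔ d ∈ Dr r ∧ d.1 ≤ 5 * r ^ 100 / 4 := by
  classical
  unfold Sr
  rw [mem_filter]

/-- the signs -/
noncomputable def vv (r : ℕ) (d : OS) : ℝ := if d.1 ≤ 5 * r ^ 100 / 4 then 1 else -1

theorem vv_abs (r : ℕ) (d : OS) : |vv r d| = 1 := by
  unfold vv
  split_ifs <;> norm_num

noncomputable def ll (d e : OS) : ℝ := Real.log (d.1 : ℝ) - Real.log (e.1 : ℝ)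

noncomputable def mm (r p : ℕ) : ℂ := ∑ d ∈ Dr r, ∑ e ∈ Sr r,
  ((vv r d * (Wr d * kr d p) * (Wr e * kr e p) : ℝ) : ℂ) *
    ((starRingEnd ℂ) (sg e) * (sg d * Kap ((r : ℝ) ^ 96) ((r : ℝ) ^ 98) (ll d e)))

theorem sum_inj (A : Finset OS) (J : Finset ℕ) (F : ℕ → ℝ) (hF : ∀ n, 0 ≤ F n)
    (hA : ∀ d ∈ A, d.1 ∈ J) : ∑ d ∈ A, F d.1 ≤ ∑ n ∈ J, F n := by
  classical
  have h1 : ∑ d ∈ A, F d.1 = ∑ n ∈ A.image (fun d => d.1), F n := by
    rw [sum_image]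
    intro x _ y _ hxy
    exact Subtype.ext hxy
  rw [h1]
  apply sum_le_sum_of_subset_of_nonneg
  · intro n hn
    rw [mem_image] at hn
    obtain ⟨d, hd, rfl⟩ := hn
    exact hA d hd
  · intro n _ _
    exact hF n

theorem Dr_window {r : ℕ} {d : OS} (h : d ∈ Dr r) :
    d.1 ∈ Ico (r ^ 100) (2 * r ^ 100) ∧ (r : ℝ) ^ 100 < (d.1 : ℝ) ∧
    (d.1 : ℝ) ≤ 3 / 2 * (r : ℝ) ^ 100 ∧ (d.1 : ℝ) ≤ 2 * (r : ℝ) ^ 100 := by
  rw [mem_Dr] at h
  obtain ⟨h1, h2⟩ := h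
  have h2' : 2 * d.1 ≤ 3 * r ^ 100 := by omega
  have h3 : (r : ℝ) ^ 100 < (d.1 : ℝ) := by exact_mod_cast h1
  have h4 : 2 * (d.1 : ℝ) ≤ 3 * (r : ℝ) ^ 100 := by exact_mod_cast h2'
  have h5 : (0 : ℝ) ≤ (r : ℝ) ^ 100 := by positivity
  refine ⟨?_, h3, by linarith, by linarith⟩
  rw [mem_Ico]
  omega

theorem Sr_sub {r : ℕ} {d : OS} (h : d ∈ Sr r) : d ∈ Dr r := (mem_Sr.1 h).1

theorem Dr_card (r : ℕ) : (#(Dr r) : ℝ) ≤ (r : ℝ) ^ 100 := by
  have h := sum_inj (Dr r) (Ico (r ^ 100) (2 * r ^ 100)) (fun _ => 1) (fun _ => zero_le_one)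
    (fun d hd => (Dr_window hd).1)
  rw [sum_const, sum_const, Nat.card_Ico, nsmul_eq_mul, mul_one, nsmul_eq_mul, mul_one] at h
  have e : 2 * r ^ 100 - r ^ 100 = r ^ 100 := by omega
  rw [e] at h
  exact_mod_cast h

theorem Sr_card (r : ℕ) : (#(Sr r) : ℝ) ≤ (r : ℝ) ^ 100 := by
  refine le_trans ?_ (Dr_card r)
  have : #(Sr r) ≤ #(Dr r) := card_le_card fun d hd => Sr_sub hd
  exact_mod_cast this

theorem Sr_card_lower {r : ℕ} (hr : 1000 ≤ r) : (r : ℝ) ^ 100 / 100 ≤ #(Sr r) := by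
  classical
  have hr' : (1000 : ℝ) ≤ r := by exact_mod_cast hr
  have hr1 : (1 : ℝ) ≤ r := by linarith
  set K := 2 * r ^ 50 with hK
  have h50 : r ≤ r ^ 50 := Nat.le_self_pow (by norm_num) r
  have h1 : 5 * r ^ 100 / 4 ≤ K ^ 2 := by
    have : K ^ 2 = 4 * r ^ 100 := by rw [hK]; ring
    rw [this]
    omega
  have hab : r ^ 100 ≤ 5 * r ^ 100 / 4 := by omega
  have hcount := sqf_count hab h1 (by omega)
  have hb : 5 / 4 * (r : ℝ) ^ 100 - 1 ≤ ((5 * r ^ 100 / 4 : ℕ) : ℝ) := by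
    have h2 : 5 * r ^ 100 ≤ 4 * (5 * r ^ 100 / 4) + 4 := by omega
    have h3 : 5 * (r : ℝ) ^ 100 ≤ 4 * ((5 * r ^ 100 / 4 : ℕ) : ℝ) + 4 := by exact_mod_cast h2
    linarith
  have hKr : (K : ℝ) = 2 * (r : ℝ) ^ 50 := by rw [hK]; push_cast; rfl
  have ha : ((r ^ 100 : ℕ) : ℝ) = (r : ℝ) ^ 100 := by push_cast; rfl
  rw [ha, hKr] at hcount
  have hcard : #{x ∈ Ioc (r ^ 100) (5 * r ^ 100 / 4) | Odd x ∧ Squarefree x} ≤ #(Sr r) := by
    have hsub : {x ∈ Ioc (r ^ 100) (5 * r ^ 100 / 4) | Odd x ∧ Squarefree x} ⊆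
        (Sr r).image (fun d => d.1) := by
      intro x hx
      rw [mem_filter, mem_Ioc] at hx
      obtain ⟨⟨hx1, hx2⟩, hx3, hx4⟩ := hx
      have h1x : 1 < x := by
        have : 1 ≤ r ^ 100 := Nat.one_le_pow _ _ (by omega)
        omega
      rw [mem_image]
      refine ⟨⟨x, hx3, hx4, h1x⟩, ?_, rfl⟩
      rw [mem_Sr, mem_Dr]
      refine ⟨⟨hx1, ?_⟩, hx2⟩
      show x ≤ 3 * r ^ 100 / 2
      omega
    exact (card_le_card hsub).trans card_image_le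
  have hcard' : ((#{x ∈ Ioc (r ^ 100) (5 * r ^ 100 / 4) | Odd x ∧ Squarefree x} : ℕ) : ℝ) ≤
      #(Sr r) := by exact_mod_cast hcard
  have h50' : (r : ℝ) ^ 50 * 1000 ≤ (r : ℝ) ^ 100 := by
    have h2 : (1000 : ℝ) ≤ (r : ℝ) ^ 50 := by
      calc (1000 : ℝ) ≤ r := hr'
        _ = (r : ℝ) ^ 1 := (pow_one _).symm
        _ ≤ (r : ℝ) ^ 50 := pow_le_pow_right₀ hr1 (by norm_num)
    calc (r : ℝ) ^ 50 * 1000 ≤ (r : ℝ) ^ 50 * (r : ℝ) ^ 50 := by gcongr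
      _ = (r : ℝ) ^ 100 := by ring
  have h50'' : (1000 : ℝ) ≤ (r : ℝ) ^ 50 := by
    calc (1000 : ℝ) ≤ r := hr'
      _ = (r : ℝ) ^ 1 := (pow_one _).symm
      _ ≤ (r : ℝ) ^ 50 := pow_le_pow_right₀ hr1 (by norm_num)
  linarith

end Pool.Agent.H491R3.J
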